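import Pool.Agent.Helper87.KM.MainIneq

/-!
The main inequality in the interface of the assembly.
-/

namespace Pool.Agent.Helper87.KM

open Finset PowerSeries

/-- complete symmetric sums -/
noncomputable def H {r : ℕ} (ε : Fin r → ℕ) (m : ℕ) : ℝ :=
  ∑ k ∈ piAntidiag univ m, ∏ i, (ε i : ℝ) ^ (k i)

/-- the sums `q_m` -/
noncomputable def q {r : ℕ} (ε : Fin r → ℕ) (m : ℕ) : ℝ :=
  ∑ k ∈ piAntidiag univ m, ∏ i, ((ε i).choose (k i) : ℝ) / ((k i : ℝ) + 1)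

lemma sum_fin_pi (r m : ℕ) (f : (Fin r → ℕ) → ℝ) :
    ∑ l ∈ finsuppAntidiag (univ : Finset (Fin r)) m, f l = ∑ k ∈ piAntidiag univ m, f k := by
  apply Finset.sum_nbij' (fun l : Fin r →₀ ℕ ↦ (l : Fin r → ℕ))
    (fun k : Fin r → ℕ ↦ (Finsupp.equivFunOnFinite.symm k : Fin r →₀ ℕ))
  · intro l hl
    have h := (Finset.mem_finsuppAntidiag.mp hl).1
    rw [Finset.mem_piAntidiag]
    exact ⟨h, fun i _ ↦ mem_univ i⟩
  · intro k hk
    have h := (Finset.mem_piAntidiag.mp hk).1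
    rw [Finset.mem_finsuppAntidiag]
    exact ⟨h, fun i _ ↦ mem_univ i⟩
  · intro l _
    exact Finsupp.equivFunOnFinite.symm_apply_apply l
  · intro k _
    rfl
  · intro l _
    rfl

lemma H_eq {r : ℕ} (ε : Fin r → ℕ) (m : ℕ) : H ε m = hs (fun i ↦ (ε i : ℝ)) m := by
  rw [hs_formula]
  exact (sum_fin_pi r m fun k ↦ ∏ i, (ε i : ℝ) ^ (k i)).symm

lemma q_eq {r : ℕ} (ε : Fin r → ℕ) (m : ℕ) : q ε m = qf ε m := by
  unfold qf
  rw [PowerSeries.coeff_prod]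
  simp only [Qs_coeff]
  exact (sum_fin_pi r m fun k ↦ ∏ i, ((ε i).choose (k i) : ℝ) / ((k i : ℝ) + 1)).symm

/-- power series forms -/
lemma H_series {r : ℕ} (ε : Fin r → ℕ) (m : ℕ) :
    H ε m = coeff m (∏ i, (PowerSeries.mk fun k ↦ (ε i : ℝ) ^ k : PowerSeries ℝ)) := by
  rw [H_eq, hs_series]

lemma q_series {r : ℕ} (ε : Fin r → ℕ) (m : ℕ) : q ε m = coeff m (∏ i,
    (PowerSeries.mk fun k ↦ ((ε i).choose k : ℝ) / ((k : ℝ) + 1) : PowerSeries ℝ)) := by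
  rw [q_eq]
  rfl

/-- **The main inequality, in the form for the assembly.** -/
theorem main85 (n r : ℕ) (hn : 3 ≤ n) (hr : 1 ≤ r) (ε : Fin r → ℕ) (P R : ℕ → ℝ)
    (Z κ₁ κ₂ : ℝ) (hP0 : P 0 = 1) (hR0 : R 0 = 1 - Z) (hZ : 0 ≤ Z) (hR : ∀ t, 0 ≤ R t)
    (hmono : ∀ t, t < n + r - 1 → R (t + 1) / ((n + r - 1).choose (t + 1) : ℝ) ≤
      R t / ((n + r - 1).choose t : ℝ))
    (hκ₁ : 0 ≤ κ₁) (hκ₂ : 0 ≤ κ₂)
    (hP1 : P 1 ≤ R 1 / 2 + κ₁ / 2)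
    (hK1 : ((n : ℝ) + r) / ((n : ℝ) + r - 1) * κ₁ ≤ R 0 - R 1 / ((n : ℝ) + r - 1))
    (hP2 : P 2 ≤ ((KN.rho 2 (n + r - 1) : ℚ) : ℝ) * R 2 +
      κ₂ * ((n : ℝ) + r - 2) / (6 * ((n : ℝ) + r - 1)))
    (hK2 : ((n : ℝ) + r) * κ₂ / (((n : ℝ) + r - 1) * ((n : ℝ) + r - 2)) ≤
      R 1 / ((n : ℝ) + r - 1) - R 2 / ((n + r - 1).choose 2 : ℝ))
    (hP : ∀ t, 3 ≤ t → t ≤ n → P t ≤ ((KN.rho t (n + r - 1) : ℚ) : ℝ) * R t) :
    ∑ t ∈ range (n + 1), q ε (n - t) * P t ≤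
      ((KN.rho n (n + r - 1) : ℚ) : ℝ) * (∑ t ∈ range (n + 1), H ε (n - t) * R t
        + Z * (∑ t ∈ range (n + 1), (-1 : ℝ) ^ t * H ε (n - t)
          - (-1) ^ n / ∏ i, ((ε i : ℝ) + 1))) := by
  obtain ⟨d, rfl⟩ : ∃ d, r = d + 1 := ⟨r - 1, by omega⟩
  have eM : n + (d + 1) - 1 = n + d := by omega
  rw [eM] at hmono hP2 hK2 hP ⊢
  have hmono' : ∀ s t, s ≤ t → t ≤ n →
      R t / ((n + d).choose t : ℝ) ≤ R s / ((n + d).choose s : ℝ) := by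
    intro s t hst
    induction t, hst using Nat.le_induction with
    | base => intro _; exact le_rfl
    | succ t hst ih =>
      intro ht
      exact (hmono t (by omega)).trans (ih (by omega))
  have hp1 : (1 : ℝ) ≤ ∏ i, ((ε i : ℝ) + 1) := by
    have : ∀ i ∈ (univ : Finset (Fin (d + 1))), (1 : ℝ) ≤ (ε i : ℝ) + 1 := by
      intro i _
      have : (0 : ℝ) ≤ ε i := by positivity
      linarith
    calc (1 : ℝ) = ∏ _i : Fin (d + 1), (1 : ℝ) := by simp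
      _ ≤ _ := Finset.prod_le_prod (fun _ _ ↦ by norm_num) this
  have hp0 : (0 : ℝ) < ∏ i, ((ε i : ℝ) + 1) := by linarith
  push_cast at hK1 hP2 hK2
  have h := main_ineq ε d n (by simp) hn P R Z κ₁ κ₂ (1 / ∏ i, ((ε i : ℝ) + 1))
    (by positivity) (by rw [div_le_one hp0]; exact hp1)
    (by
      intro h0
      simp [h0])
    hP0 hR0 hZ hR hmono' hκ₁ hκ₂ hP1
    (by
      have e1 : (n : ℝ) + ((d : ℝ) + 1) - 1 = (n : ℝ) + d := by ring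
      have e2 : (n : ℝ) + ((d : ℝ) + 1) = (n : ℝ) + d + 1 := by ring
      rw [e1, e2] at hK1
      exact hK1)
    (by
      have e1 : (n : ℝ) + ((d : ℝ) + 1) - 1 = (n : ℝ) + d := by ring
      have e2 : (n : ℝ) + ((d : ℝ) + 1) - 2 = (n : ℝ) + d - 1 := by ring
      rw [e1, e2] at hP2
      exact hP2)
    (by
      have e1 : (n : ℝ) + ((d : ℝ) + 1) - 1 = (n : ℝ) + d := by ring
      have e2 : (n : ℝ) + ((d : ℝ) + 1) = (n : ℝ) + d + 1 := by ring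
      have e3 : (n : ℝ) + d + 1 - 2 = (n : ℝ) + d - 1 := by ring
      rw [e1, e2, e3] at hK2
      exact hK2)
    hP
  have hH : H ε = hs fun i ↦ (ε i : ℝ) := by
    funext m
    exact H_eq ε m
  have f1 : ∑ t ∈ range (n + 1), q ε (n - t) * P t = ∑ p ∈ antidiagonal n, qf ε p.1 * P p.2 := by
    rw [← Finset.Nat.sum_antidiagonal_swap, Finset.Nat.sum_antidiagonal_eq_sum_range_succ_mk]
    simp only [Prod.fst_swap, Prod.snd_swap, q_eq]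
  have f2 : ∑ t ∈ range (n + 1), H ε (n - t) * R t
      = ∑ p ∈ antidiagonal n, hs (fun i ↦ (ε i : ℝ)) p.1 * R p.2 := by
    rw [← Finset.Nat.sum_antidiagonal_swap, Finset.Nat.sum_antidiagonal_eq_sum_range_succ_mk]
    simp only [Prod.fst_swap, Prod.snd_swap, hH]
  rw [f1, f2]
  refine h.trans (le_of_eq ?_)
  rw [KN.rho_add]
  unfold Bv
  rw [hH]
  ring

end Pool.Agent.Helper87.KM
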