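import Mathlib

/-!
Two-variable Chebyshev inequality, an integral, and a minimum principle for
functions on the orthant which decrease under pairwise averaging.
-/

namespace Pool.Agent.Helper87.KM

open Finset intervalIntegral

lemma pow_sub_mul_nonneg (m : ℕ) (x y : ℝ) (hx : 0 ≤ x) (hy : 0 ≤ y) :
    0 ≤ (x ^ m - y ^ m) * (x - y) := by
  rcases le_total x y with h | h
  · have h1 : x ^ m ≤ y ^ m := pow_le_pow_left₀ hx h m
    nlinarith
  · have h1 : y ^ m ≤ x ^ m := pow_le_pow_left₀ hy h m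
    nlinarith

/-- two-variable Chebyshev inequality -/
lemma cheb2 (t : ℕ) (α : ℕ → ℝ) (hsym : ∀ a ≤ t, α (t - a) = α a)
    (hmon : ∀ a, 2 * (a + 1) ≤ t → α a ≤ α (a + 1))
    (x y : ℝ) (hx : 0 ≤ x) (hy : 0 ≤ y) :
    ((t : ℝ) + 1) * ∑ a ∈ range (t + 1), α a * (x ^ a * y ^ (t - a)) ≤
      (∑ a ∈ range (t + 1), α a) * ∑ a ∈ range (t + 1), x ^ a * y ^ (t - a) := by
  set β : ℕ → ℝ := fun a ↦ x ^ a * y ^ (t - a) + x ^ (t - a) * y ^ a with hβ
  have bsym : ∀ a ≤ t, β (t - a) = β a := by
    intro a ha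
    simp only [hβ]
    rw [Nat.sub_sub_self ha]
    ring
  have bmon : ∀ a, 2 * (a + 1) ≤ t → β (a + 1) ≤ β a := by
    intro a ha
    simp only [hβ]
    obtain ⟨d, hd⟩ : ∃ d, t = 2 * (a + 1) + d := ⟨t - 2 * (a + 1), by omega⟩
    have e1 : t - (a + 1) = a + 1 + d := by omega
    have e2 : t - a = a + 2 + d := by omega
    rw [e1, e2]
    have h := pow_sub_mul_nonneg (d + 1) x y hx hy
    have h2 : 0 ≤ x ^ a * y ^ a := by positivity
    have h3 := mul_nonneg h2 h
    have e3 : x ^ a * y ^ (a + 2 + d) + x ^ (a + 2 + d) * y ^ a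
        - (x ^ (a + 1) * y ^ (a + 1 + d) + x ^ (a + 1 + d) * y ^ (a + 1))
        = x ^ a * y ^ a * ((x ^ (d + 1) - y ^ (d + 1)) * (x - y)) := by ring
    linarith
  have amon' : ∀ a b, a ≤ b → 2 * b ≤ t → α a ≤ α b := by
    intro a b hab
    induction b, hab using Nat.le_induction with
    | base => intro _; exact le_rfl
    | succ b hab ih => intro hb; exact (ih (by omega)).trans (hmon b hb)
  have bmon' : ∀ a b, a ≤ b → 2 * b ≤ t → β b ≤ β a := by
    intro a b hab
    induction b, hab using Nat.le_induction with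
    | base => intro _; exact le_rfl
    | succ b hab ih => intro hb; exact (bmon b hb).trans (ih (by omega))
  have hm : ∀ i ≤ t, ∃ m, 2 * m ≤ t ∧ α i = α m ∧ β i = β m := by
    intro i hi
    rcases le_total (2 * i) t with h | h
    · exact ⟨i, h, rfl, rfl⟩
    · exact ⟨t - i, by omega, (hsym i hi).symm, (bsym i hi).symm⟩
  have anti : AntivaryOn α β (range (t + 1) : Finset ℕ) := by
    intro i hi j hj hij
    have hi' : i ≤ t := by have := Finset.mem_range.mp hi; omega
    have hj' : j ≤ t := by have := Finset.mem_range.mp hj; omega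
    obtain ⟨mi, h1, h2, h3⟩ := hm i hi'
    obtain ⟨mj, h4, h5, h6⟩ := hm j hj'
    rw [h3, h6] at hij
    have hlt : mj < mi := by
      by_contra hc
      push Not at hc
      exact absurd (bmon' mi mj hc h4) (not_le.mpr hij)
    rw [h2, h5]
    exact amon' mj mi hlt.le h1
  have key := anti.card_mul_sum_le_sum_mul_sum
  rw [Finset.card_range] at key
  have refl1 : ∑ a ∈ range (t + 1), α a * (x ^ (t - a) * y ^ a)
      = ∑ a ∈ range (t + 1), α a * (x ^ a * y ^ (t - a)) := by
    rw [← Finset.sum_range_reflect]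
    apply Finset.sum_congr rfl
    intro a ha
    have ha' : a ≤ t := by have := Finset.mem_range.mp ha; omega
    have e1 : t + 1 - 1 - a = t - a := by omega
    rw [e1, hsym a ha', Nat.sub_sub_self ha']
  have refl2 : ∑ a ∈ range (t + 1), (x ^ (t - a) * y ^ a)
      = ∑ a ∈ range (t + 1), (x ^ a * y ^ (t - a)) := by
    rw [← Finset.sum_range_reflect]
    apply Finset.sum_congr rfl
    intro a ha
    have ha' : a ≤ t := by have := Finset.mem_range.mp ha; omega
    have e1 : t + 1 - 1 - a = t - a := by omega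
    rw [e1, Nat.sub_sub_self ha']
  have s1 : ∑ a ∈ range (t + 1), α a * β a
      = 2 * ∑ a ∈ range (t + 1), α a * (x ^ a * y ^ (t - a)) := by
    simp only [hβ, mul_add, Finset.sum_add_distrib]
    rw [refl1]; ring
  have s2 : ∑ a ∈ range (t + 1), β a = 2 * ∑ a ∈ range (t + 1), x ^ a * y ^ (t - a) := by
    simp only [hβ, Finset.sum_add_distrib]
    rw [refl2]; ring
  rw [s1, s2] at key
  push_cast at key
  nlinarith

/-- the mean of a power of a convex combination -/
lemma int_pow (t : ℕ) (x y : ℝ) :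
    ((t : ℝ) + 1) * ∫ l in (0 : ℝ)..1, (l * x + (1 - l) * y) ^ t =
      ∑ a ∈ range (t + 1), x ^ a * y ^ (t - a) := by
  have ht : ((t : ℝ) + 1) ≠ 0 := by positivity
  by_cases hxy : x = y
  · subst hxy
    have e1 : ∀ l : ℝ, l * x + (1 - l) * x = x := fun l ↦ by ring
    simp only [e1]
    rw [intervalIntegral.integral_const, sub_zero, one_smul]
    have e2 : ∀ a ∈ range (t + 1), x ^ a * x ^ (t - a) = x ^ t := by
      intro a ha
      have ha' : a ≤ t := by have := Finset.mem_range.mp ha; omega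
      rw [← pow_add]
      congr 1
      omega
    rw [Finset.sum_congr rfl e2, Finset.sum_const, Finset.card_range, nsmul_eq_mul]
    push_cast
    ring
  · have hne : x - y ≠ 0 := sub_ne_zero.mpr hxy
    have e1 : ∀ l : ℝ, l * x + (1 - l) * y = (x - y) * l + y := fun l ↦ by ring
    simp only [e1]
    have h1 := intervalIntegral.integral_comp_mul_add (a := (0 : ℝ)) (b := 1)
      (fun u : ℝ ↦ u ^ t) hne y
    rw [h1, integral_pow]
    have h2 := (Commute.all x y).geom_sum₂_mul (t + 1)
    have h3 : ∑ a ∈ range (t + 1), x ^ a * y ^ (t + 1 - 1 - a)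
        = ∑ a ∈ range (t + 1), x ^ a * y ^ (t - a) := by
      apply Finset.sum_congr rfl
      intro a _
      rw [Nat.add_sub_cancel]
    rw [h3] at h2
    rw [smul_eq_mul]
    have e4 : (x - y) * 1 + y = x := by ring
    have e5 : (x - y) * 0 + y = y := by ring
    rw [e4, e5]
    have h4 : ∑ a ∈ range (t + 1), x ^ a * y ^ (t - a) = (x ^ (t + 1) - y ^ (t + 1)) / (x - y) := by
      rw [eq_div_iff hne, h2]
    rw [h4]
    field_simp

variable {ι : Type*} [Fintype ι] [DecidableEq ι]

/-- replace the coordinates `p` and `q` by the convex combination -/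
noncomputable def upd (x : ι → ℝ) (p q : ι) (l : ℝ) : ι → ℝ :=
  fun i ↦ if i = p ∨ i = q then l * x p + (1 - l) * x q else x i

omit [Fintype ι] in
lemma upd_mem (x : ι → ℝ) (p q : ι) (l R : ℝ) (h0 : 0 ≤ l) (h1 : l ≤ 1)
    (hx : ∀ i, 0 ≤ x i ∧ x i ≤ R) (i : ι) : 0 ≤ upd x p q l i ∧ upd x p q l i ≤ R := by
  unfold upd
  split_ifs
  · obtain ⟨a1, a2⟩ := hx p
    obtain ⟨b1, b2⟩ := hx q
    have h2 : 0 ≤ 1 - l := by linarith
    constructor
    · positivity
    · nlinarith
  · exact hx i

omit [Fintype ι] in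
lemma upd_cont (x : ι → ℝ) (p q : ι) : Continuous (upd x p q) := by
  apply continuous_pi
  intro i
  unfold upd
  split_ifs
  · fun_prop
  · fun_prop

/-- minimum principle -/
theorem min_principle (D : (ι → ℝ) → ℝ) (hc : Continuous D) (hdiag : ∀ c : ℝ, 0 ≤ D (fun _ ↦ c))
    (hP : ∀ x : ι → ℝ, (∀ i, 0 ≤ x i) → ∀ p q, p ≠ q →
      ∫ l in (0 : ℝ)..1, D (upd x p q l) ≤ D x)
    (x₀ : ι → ℝ) (hx₀ : ∀ i, 0 ≤ x₀ i) : 0 ≤ D x₀ := by
  by_contra hneg
  push Not at hneg
  set V : (ι → ℝ) → ℝ := fun x ↦ ∑ i, x i ^ 2 with hV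
  have hVc : Continuous V := by
    simp only [hV]
    fun_prop
  have hV0 : 0 ≤ V x₀ := Finset.sum_nonneg fun i _ ↦ sq_nonneg _
  set η : ℝ := -D x₀ / (2 * (V x₀ + 1)) with hη
  have hη0 : 0 < η := by
    rw [hη]; apply div_pos <;> linarith
  have hηx : D x₀ + η * V x₀ < 0 := by
    have h1 : η * V x₀ ≤ -D x₀ / 2 := by
      rw [hη]
      have h2 : -D x₀ / (2 * (V x₀ + 1)) * V x₀ = (-D x₀ / 2) * (V x₀ / (V x₀ + 1)) := by
        field_simp
      rw [h2]
      have h3 : V x₀ / (V x₀ + 1) ≤ 1 := by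
        rw [div_le_one (by linarith)]; linarith
      have h4 : 0 ≤ -D x₀ / 2 := by linarith
      nlinarith
    linarith
  set R : ℝ := ∑ i, x₀ i with hR
  set K : Set (ι → ℝ) := Set.univ.pi fun _ ↦ Set.Icc 0 R with hK
  have hKc : IsCompact K := isCompact_univ_pi fun _ ↦ isCompact_Icc
  have hx₀K : x₀ ∈ K := by
    intro i _
    exact ⟨hx₀ i, Finset.single_le_sum (f := x₀) (fun j _ ↦ hx₀ j) (mem_univ i)⟩
  set g : (ι → ℝ) → ℝ := fun x ↦ D x + η * V x with hg
  have hgc : Continuous g := by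
    simp only [hg]
    exact hc.add (continuous_const.mul hVc)
  obtain ⟨x, hxK, hxmin⟩ := hKc.exists_isMinOn ⟨x₀, hx₀K⟩ hgc.continuousOn
  have hgx : g x < 0 := lt_of_le_of_lt (hxmin hx₀K) hηx
  have hx01 : ∀ i, 0 ≤ x i ∧ x i ≤ R := fun i ↦ hxK i (Set.mem_univ i)
  by_cases hall : ∃ c, x = fun _ ↦ c
  · obtain ⟨c, rfl⟩ := hall
    have h1 := hdiag c
    have h2 : 0 ≤ V (fun _ ↦ c) := Finset.sum_nonneg fun i _ ↦ sq_nonneg _
    have h3 : 0 ≤ η * V (fun _ ↦ c) := mul_nonneg hη0.le h2
    have : g (fun _ ↦ c) = D (fun _ ↦ c) + η * V (fun _ ↦ c) := rfl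
    linarith
  · obtain ⟨p, q, hpq⟩ : ∃ p q, x p ≠ x q := by
      by_contra hcon
      push Not at hcon
      apply hall
      rcases isEmpty_or_nonempty ι with h | h
      · exact ⟨0, funext fun i ↦ (h.false i).elim⟩
      · obtain ⟨p⟩ := h
        exact ⟨x p, funext fun i ↦ hcon i p⟩
    have hne : p ≠ q := fun h ↦ hpq (by rw [h])
    have hu := upd_cont x p q
    have hmin : ∀ l ∈ Set.Icc (0 : ℝ) 1, g x ≤ g (upd x p q l) := by
      intro l hl
      apply hxmin
      intro i _
      exact upd_mem x p q l R hl.1 hl.2 hx01 i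
    have h1 : ∫ _l in (0 : ℝ)..1, g x ≤ ∫ l in (0 : ℝ)..1, g (upd x p q l) := by
      apply intervalIntegral.integral_mono_on (by norm_num)
      · exact intervalIntegrable_const
      · exact (hgc.comp hu).intervalIntegrable _ _
      · exact hmin
    rw [intervalIntegral.integral_const, sub_zero, one_smul] at h1
    have h2 : ∫ l in (0 : ℝ)..1, g (upd x p q l)
        = (∫ l in (0 : ℝ)..1, D (upd x p q l)) + η * ∫ l in (0 : ℝ)..1, V (upd x p q l) := by
      simp only [hg]
      rw [intervalIntegral.integral_add, intervalIntegral.integral_const_mul]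
      · exact (hc.comp hu).intervalIntegrable _ _
      · exact (continuous_const.mul (hVc.comp hu)).intervalIntegrable _ _
    have h3 := hP x (fun i ↦ (hx01 i).1) p q hne
    -- the quadratic part
    have h4 : ∀ l : ℝ, V (upd x p q l) = (∑ i ∈ univ \ {p, q}, x i ^ 2)
        + 2 * (l * x p + (1 - l) * x q) ^ 2 := by
      intro l
      simp only [hV]
      rw [← Finset.sum_sdiff (Finset.subset_univ ({p, q} : Finset ι))]
      congr 1
      · apply Finset.sum_congr rfl
        intro i hi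
        have hi' := (Finset.mem_sdiff.mp hi).2
        simp only [mem_insert, mem_singleton] at hi'
        unfold upd
        rw [if_neg hi']
      · rw [Finset.sum_pair hne]
        unfold upd
        rw [if_pos (Or.inl rfl), if_pos (Or.inr rfl)]
        ring
    have h5 : V x = (∑ i ∈ univ \ {p, q}, x i ^ 2) + (x p ^ 2 + x q ^ 2) := by
      simp only [hV]
      rw [← Finset.sum_sdiff (Finset.subset_univ ({p, q} : Finset ι)), Finset.sum_pair hne]
    have h6 : ∫ l in (0 : ℝ)..1, V (upd x p q l)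
        = (∑ i ∈ univ \ {p, q}, x i ^ 2) + 2 * ((x p ^ 2 + x p * x q + x q ^ 2) / 3) := by
      simp only [h4]
      rw [intervalIntegral.integral_add, intervalIntegral.integral_const, sub_zero, one_smul,
        intervalIntegral.integral_const_mul]
      · have h7 := int_pow 2 (x p) (x q)
        norm_num [Finset.sum_range_succ] at h7
        have : ∫ l in (0 : ℝ)..1, (l * x p + (1 - l) * x q) ^ 2
            = (x p ^ 2 + x p * x q + x q ^ 2) / 3 := by linarith
        rw [this]
      · exact intervalIntegrable_const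
      · apply Continuous.intervalIntegrable
        fun_prop
    have h8 : 0 < (x p - x q) ^ 2 := by
      have : x p - x q ≠ 0 := sub_ne_zero.mpr hpq
      positivity
    have h9 : g x = D x + η * V x := rfl
    rw [h2, h6, h9, h5] at h1
    nlinarith

end Pool.Agent.Helper87.KM
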