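import Pool.Agent.Helper87.KM.Cheb

/-!
The correlation inequality for products of log-concave sequences.
-/

namespace Pool.Agent.Helper87.KM

open Finset intervalIntegral PowerSeries

/-- the series `∑ x^m φ_m u^m` -/
noncomputable def Ph (φ : ℕ → PowerSeries ℝ) (x : ℝ) : PowerSeries (PowerSeries ℝ) :=
  PowerSeries.mk fun m ↦ PowerSeries.C (x ^ m) * φ m

variable {ι : Type*} [Fintype ι] [DecidableEq ι]

/-- the product over `S` -/
noncomputable def W (φ : ℕ → PowerSeries ℝ) (x : ι → ℝ) (S : Finset ι) :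
    PowerSeries (PowerSeries ℝ) := ∏ i ∈ S, Ph φ (x i)

/-- the coefficient -/
noncomputable def T (φ : ℕ → PowerSeries ℝ) (x : ι → ℝ) (m s : ℕ) : ℝ :=
  coeff s (coeff m (W φ x univ))

omit [Fintype ι] in
lemma W_coeff_nonneg (φ : ℕ → PowerSeries ℝ) (hφ : ∀ m s, 0 ≤ coeff s (φ m)) (x : ι → ℝ)
    (hx : ∀ i, 0 ≤ x i) (S : Finset ι) : ∀ m s, 0 ≤ coeff s (coeff m (W φ x S)) := by
  unfold W
  induction S using Finset.induction_on with
  | empty =>
    intro m s
    rw [Finset.prod_empty, PowerSeries.coeff_one]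
    split_ifs
    · rw [PowerSeries.coeff_one]; split_ifs <;> norm_num
    · simp
  | insert i S hi ih =>
    intro m s
    rw [Finset.prod_insert hi, PowerSeries.coeff_mul, map_sum]
    apply Finset.sum_nonneg
    intro a _
    rw [PowerSeries.coeff_mul]
    apply Finset.sum_nonneg
    intro b _
    apply mul_nonneg _ (ih _ _)
    unfold Ph
    rw [PowerSeries.coeff_mk, PowerSeries.coeff_C_mul]
    exact mul_nonneg (pow_nonneg (hx i) _) (hφ _ _)

omit [DecidableEq ι] in
lemma T_formula (φ : ℕ → PowerSeries ℝ) (x : ι → ℝ) (m s : ℕ) [DecidableEq ι] :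
    T φ x m s = ∑ l ∈ finsuppAntidiag (univ : Finset ι) m,
      (∏ i, x i ^ l i) * coeff s (∏ i, φ (l i)) := by
  unfold T W
  rw [PowerSeries.coeff_prod, map_sum]
  apply Finset.sum_congr rfl
  intro l _
  unfold Ph
  simp only [PowerSeries.coeff_mk]
  rw [Finset.prod_mul_distrib]
  have : ∏ i, (PowerSeries.C (R := ℝ)) (x i ^ l i) = PowerSeries.C (∏ i, x i ^ l i) := by
    rw [map_prod]
  rw [this, PowerSeries.coeff_C_mul]

lemma T_cont (φ : ℕ → PowerSeries ℝ) (m s : ℕ) : Continuous fun x : ι → ℝ ↦ T φ x m s := by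
  simp only [T_formula]
  fun_prop

lemma T_diag (φ : ℕ → PowerSeries ℝ) (m s : ℕ) (c : ℝ) :
    T φ (fun _ : ι ↦ c) m s = c ^ m * T φ (fun _ : ι ↦ 1) m s := by
  rw [T_formula, T_formula, Finset.mul_sum]
  apply Finset.sum_congr rfl
  intro l hl
  have h := (Finset.mem_finsuppAntidiag.mp hl).1
  rw [Finset.prod_pow_eq_pow_sum, h]
  simp

lemma Ph_mul_coeff (φ : ℕ → PowerSeries ℝ) (x y : ℝ) (t s : ℕ) :
    coeff s (coeff t (Ph φ x * Ph φ y)) =
      ∑ a ∈ range (t + 1), coeff s (φ a * φ (t - a)) * (x ^ a * y ^ (t - a)) := by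
  rw [PowerSeries.coeff_mul, Finset.Nat.sum_antidiagonal_eq_sum_range_succ
    (fun a b ↦ coeff a (Ph φ x) * coeff b (Ph φ y)), map_sum]
  apply Finset.sum_congr rfl
  intro a _
  unfold Ph
  rw [PowerSeries.coeff_mk, PowerSeries.coeff_mk]
  have : PowerSeries.C (x ^ a) * φ a * (PowerSeries.C (y ^ (t - a)) * φ (t - a))
      = PowerSeries.C (x ^ a * y ^ (t - a)) * (φ a * φ (t - a)) := by
    rw [map_mul]; ring
  rw [this, PowerSeries.coeff_C_mul]
  ring

lemma Ph_sq_coeff (φ : ℕ → PowerSeries ℝ) (c : ℝ) (t s : ℕ) :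
    coeff s (coeff t (Ph φ c * Ph φ c)) =
      (∑ a ∈ range (t + 1), coeff s (φ a * φ (t - a))) * c ^ t := by
  rw [Ph_mul_coeff, Finset.sum_mul]
  apply Finset.sum_congr rfl
  intro a ha
  have ha' : a ≤ t := by have := Finset.mem_range.mp ha; omega
  rw [← pow_add, Nat.add_sub_cancel' ha']

/-- two-variable inequality -/
lemma two_var (φ : ℕ → PowerSeries ℝ)
    (hlc : ∀ a b s, a + 1 ≤ b → coeff s (φ a * φ (b + 1)) ≤ coeff s (φ (a + 1) * φ b))
    (x y : ℝ) (hx : 0 ≤ x) (hy : 0 ≤ y) (t s : ℕ) :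
    coeff s (coeff t (Ph φ x * Ph φ y)) ≤
      ∫ l in (0 : ℝ)..1, coeff s (coeff t (Ph φ (l * x + (1 - l) * y) *
        Ph φ (l * x + (1 - l) * y))) := by
  simp only [Ph_sq_coeff]
  rw [intervalIntegral.integral_const_mul, Ph_mul_coeff]
  have h1 := cheb2 t (fun a ↦ coeff s (φ a * φ (t - a))) (by
    intro a ha
    rw [Nat.sub_sub_self ha, mul_comm]) (by
    intro a ha
    have h := hlc a (t - (a + 1)) s (by omega)
    rw [show t - (a + 1) + 1 = t - a by omega] at h
    exact h) x y hx hy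
  rw [← int_pow] at h1
  have ht : (0 : ℝ) < (t : ℝ) + 1 := by positivity
  have h2 : (∑ a ∈ range (t + 1), coeff s (φ a * φ (t - a))) *
      (((t : ℝ) + 1) * ∫ l in (0 : ℝ)..1, (l * x + (1 - l) * y) ^ t)
      = ((t : ℝ) + 1) * ((∑ a ∈ range (t + 1), coeff s (φ a * φ (t - a))) *
        ∫ l in (0 : ℝ)..1, (l * x + (1 - l) * y) ^ t) := by ring
  rw [h2] at h1
  exact le_of_mul_le_mul_left h1 ht

lemma two_var_eq (x y : ℝ) (t s : ℕ) :
    coeff s (coeff t (Ph (fun _ ↦ 1) x * Ph (fun _ ↦ 1) y)) =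
      ∫ l in (0 : ℝ)..1, coeff s (coeff t (Ph (fun _ ↦ 1) (l * x + (1 - l) * y) *
        Ph (fun _ ↦ 1) (l * x + (1 - l) * y))) := by
  simp only [Ph_sq_coeff]
  rw [intervalIntegral.integral_const_mul, Ph_mul_coeff]
  simp only [mul_one]
  rw [Finset.sum_const, Finset.card_range, nsmul_eq_mul, ← Finset.mul_sum]
  have h := int_pow t x y
  rw [← h]
  push_cast
  ring

lemma W_split (φ : ℕ → PowerSeries ℝ) (x : ι → ℝ) (p q : ι) (hpq : p ≠ q) :
    W φ x univ = (Ph φ (x p) * Ph φ (x q)) * W φ x (univ \ {p, q}) := by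
  unfold W
  rw [← Finset.prod_sdiff (Finset.subset_univ ({p, q} : Finset ι)), Finset.prod_pair hpq]
  ring

lemma coeff_split (F G : PowerSeries (PowerSeries ℝ)) (m s : ℕ) :
    coeff s (coeff m (F * G)) = ∑ a ∈ antidiagonal m, ∑ b ∈ antidiagonal s,
      coeff b.1 (coeff a.1 F) * coeff b.2 (coeff a.2 G) := by
  rw [PowerSeries.coeff_mul, map_sum]
  apply Finset.sum_congr rfl
  intro a _
  rw [PowerSeries.coeff_mul]

lemma T_upd (φ : ℕ → PowerSeries ℝ) (x : ι → ℝ) (p q : ι) (hpq : p ≠ q) (m s : ℕ) (l : ℝ) :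
    T φ (upd x p q l) m s = ∑ a ∈ antidiagonal m, ∑ b ∈ antidiagonal s,
      coeff b.1 (coeff a.1 (Ph φ (l * x p + (1 - l) * x q) * Ph φ (l * x p + (1 - l) * x q))) *
        coeff b.2 (coeff a.2 (W φ x (univ \ {p, q}))) := by
  unfold T
  rw [W_split φ _ p q hpq, coeff_split]
  have e1 : upd x p q l p = l * x p + (1 - l) * x q := by unfold upd; rw [if_pos (Or.inl rfl)]
  have e2 : upd x p q l q = l * x p + (1 - l) * x q := by unfold upd; rw [if_pos (Or.inr rfl)]
  have e3 : W φ (upd x p q l) (univ \ {p, q}) = W φ x (univ \ {p, q}) := by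
    unfold W
    apply Finset.prod_congr rfl
    intro i hi
    have hi' := (Finset.mem_sdiff.mp hi).2
    simp only [mem_insert, mem_singleton] at hi'
    unfold upd
    rw [if_neg hi']
  rw [e1, e2, e3]

lemma int_T_upd (φ : ℕ → PowerSeries ℝ) (x : ι → ℝ) (p q : ι) (hpq : p ≠ q) (m s : ℕ) :
    ∫ l in (0 : ℝ)..1, T φ (upd x p q l) m s = ∑ a ∈ antidiagonal m, ∑ b ∈ antidiagonal s,
      (∫ l in (0 : ℝ)..1,
        coeff b.1 (coeff a.1 (Ph φ (l * x p + (1 - l) * x q) * Ph φ (l * x p + (1 - l) * x q)))) *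
        coeff b.2 (coeff a.2 (W φ x (univ \ {p, q}))) := by
  have hc : ∀ t s : ℕ, Continuous fun l : ℝ ↦
      coeff s (coeff t (Ph φ (l * x p + (1 - l) * x q) * Ph φ (l * x p + (1 - l) * x q))) := by
    intro t s
    simp only [Ph_sq_coeff]
    fun_prop
  simp only [T_upd φ x p q hpq]
  rw [intervalIntegral.integral_finsetSum]
  · apply Finset.sum_congr rfl
    intro a _
    rw [intervalIntegral.integral_finsetSum]
    · apply Finset.sum_congr rfl
      intro b _
      rw [intervalIntegral.integral_mul_const]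
    · intro b _
      exact ((hc _ _).mul continuous_const).intervalIntegrable _ _
  · intro a _
    apply Continuous.intervalIntegrable
    apply continuous_finsetSum
    intro b _
    exact (hc _ _).mul continuous_const

lemma T_le_int (φ : ℕ → PowerSeries ℝ) (hφ : ∀ m s, 0 ≤ coeff s (φ m))
    (hlc : ∀ a b s, a + 1 ≤ b → coeff s (φ a * φ (b + 1)) ≤ coeff s (φ (a + 1) * φ b))
    (x : ι → ℝ) (hx : ∀ i, 0 ≤ x i) (p q : ι) (hpq : p ≠ q) (m s : ℕ) :
    T φ x m s ≤ ∫ l in (0 : ℝ)..1, T φ (upd x p q l) m s := by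
  rw [int_T_upd φ x p q hpq]
  unfold T
  rw [W_split φ x p q hpq, coeff_split]
  apply Finset.sum_le_sum
  intro a _
  apply Finset.sum_le_sum
  intro b _
  apply mul_le_mul_of_nonneg_right
  · exact two_var φ hlc (x p) (x q) (hx p) (hx q) _ _
  · exact W_coeff_nonneg φ hφ x hx _ _ _

/-- the complete symmetric polynomial -/
noncomputable def hs (x : ι → ℝ) (m : ℕ) : ℝ := T (fun _ ↦ 1) x m 0

lemma hs_formula (x : ι → ℝ) (m : ℕ) :
    hs x m = ∑ l ∈ finsuppAntidiag (univ : Finset ι) m, ∏ i, x i ^ l i := by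
  unfold hs
  rw [T_formula]
  apply Finset.sum_congr rfl
  intro l _
  simp

lemma hs_int (x : ι → ℝ) (p q : ι) (hpq : p ≠ q) (m : ℕ) :
    ∫ l in (0 : ℝ)..1, hs (upd x p q l) m = hs x m := by
  unfold hs
  rw [int_T_upd (fun _ ↦ 1) x p q hpq]
  unfold T
  rw [W_split (fun _ ↦ 1) x p q hpq, coeff_split]
  apply Finset.sum_congr rfl
  intro a _
  apply Finset.sum_congr rfl
  intro b _
  rw [← two_var_eq]

/-- the correlation inequality -/
theorem corr (φ : ℕ → PowerSeries ℝ) (hφ : ∀ m s, 0 ≤ coeff s (φ m))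
    (hlc : ∀ a b s, a + 1 ≤ b → coeff s (φ a * φ (b + 1)) ≤ coeff s (φ (a + 1) * φ b))
    (x : ι → ℝ) (hx : ∀ i, 0 ≤ x i) (m s : ℕ) :
    hs (fun _ : ι ↦ 1) m * T φ x m s ≤ T φ (fun _ : ι ↦ 1) m s * hs x m := by
  set A := T φ (fun _ : ι ↦ 1) m s with hA
  set B := hs (fun _ : ι ↦ 1) m with hB
  have hB0 : 0 ≤ B := by
    rw [hB, hs_formula]
    exact Finset.sum_nonneg fun l _ ↦ by simp
  have hc1 : Continuous fun x : ι → ℝ ↦ T φ x m s := T_cont φ m s
  have hc2 : Continuous fun x : ι → ℝ ↦ hs x m := T_cont _ m 0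
  have key := min_principle (fun x : ι → ℝ ↦ A * hs x m - B * T φ x m s)
    ((continuous_const.mul hc2).sub (continuous_const.mul hc1)) (by
      intro c
      have h1 : hs (fun _ : ι ↦ c) m = c ^ m * B := T_diag _ m 0 c
      have h2 : T φ (fun _ : ι ↦ c) m s = c ^ m * A := T_diag φ m s c
      simp only [h1, h2]
      apply le_of_eq
      ring) (by
      intro x hx p q hpq
      have hu := upd_cont x p q
      rw [intervalIntegral.integral_sub, intervalIntegral.integral_const_mul,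
        intervalIntegral.integral_const_mul, hs_int x p q hpq]
      · have h1 := T_le_int φ hφ hlc x hx p q hpq m s
        have h2 := mul_le_mul_of_nonneg_left h1 hB0
        linarith
      · exact (continuous_const.mul (hc2.comp hu)).intervalIntegrable _ _
      · exact (continuous_const.mul (hc1.comp hu)).intervalIntegrable _ _) x hx
  linarith

end Pool.Agent.Helper87.KM
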