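import Pool.Agent.Helper87.KM.Key

/-!
The homogeneous part of the multidegree inequality.
-/

namespace Pool.Agent.Helper87.KM

open Finset PowerSeries

variable {ι : Type*} [Fintype ι] [DecidableEq ι]

/-- the series of one degree -/
noncomputable def Qs (e : ℕ) : PowerSeries ℝ :=
  PowerSeries.mk fun k ↦ (e.choose k : ℝ) / ((k : ℝ) + 1)

lemma Qs_coeff (e k : ℕ) : coeff k (Qs e) = (e.choose k : ℝ) / ((k : ℝ) + 1) := by
  unfold Qs
  rw [PowerSeries.coeff_mk]

lemma Qs_zero : Qs 0 = 1 := by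
  ext k
  rw [Qs_coeff, PowerSeries.coeff_one]
  rcases k with _ | k
  · simp
  · simp

/-- the numbers `q_m` -/
noncomputable def qf (ε : ι → ℕ) (m : ℕ) : ℝ := coeff m (∏ i, Qs (ε i))

omit [Fintype ι] in
lemma coeff_prod_le (F G : ι → PowerSeries ℝ) (h0 : ∀ i m, 0 ≤ coeff m (F i))
    (h : ∀ i m, coeff m (F i) ≤ coeff m (G i)) (S : Finset ι) (m : ℕ) :
    coeff m (∏ i ∈ S, F i) ≤ coeff m (∏ i ∈ S, G i) := by
  rw [PowerSeries.coeff_prod, PowerSeries.coeff_prod]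
  apply Finset.sum_le_sum
  intro l _
  exact Finset.prod_le_prod (fun i _ ↦ h0 i _) (fun i _ ↦ h i _)

lemma Qs_le (e k : ℕ) : coeff k (Qs (1 + e)) ≤ coeff k (dgH (Ph φ2 (e : ℝ))) := by
  show _ ≤ coeff k (dg (Ph φ2 (e : ℝ)))
  rw [Qs_coeff, dg_coeff]
  have hterm : ∀ p : ℕ × ℕ, coeff p.2 (coeff p.1 (Ph φ2 (e : ℝ)))
      = (e : ℝ) ^ p.1 * (if p.2 ≤ 1 then Af (p.1 + p.2) else 0) := by
    intro p
    unfold Ph
    rw [PowerSeries.coeff_mk, PowerSeries.coeff_C_mul, φ2_coeff]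
  have hnn : ∀ p : ℕ × ℕ, 0 ≤ (e : ℝ) ^ p.1 * (if p.2 ≤ 1 then Af (p.1 + p.2) else 0) := by
    intro p
    apply mul_nonneg (by positivity)
    split_ifs
    · exact (Af_pos _).le
    · exact le_rfl
  simp only [hterm]
  rcases k with _ | j
  · rw [Finset.Nat.antidiagonal_zero, Finset.sum_singleton]
    simp [Af]
  · rw [Finset.Nat.sum_antidiagonal_succ']
    have h1 : (e : ℝ) ^ j * (if 0 + 1 ≤ 1 then Af (j + (0 + 1)) else 0) ≤
        ∑ p ∈ antidiagonal j, (e : ℝ) ^ p.1 * (if p.2 + 1 ≤ 1 then Af (p.1 + (p.2 + 1)) else 0) := by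
      have := Finset.single_le_sum (s := antidiagonal j)
        (f := fun p : ℕ × ℕ ↦ (e : ℝ) ^ p.1 * (if p.2 + 1 ≤ 1 then Af (p.1 + (p.2 + 1)) else 0))
        (fun p _ ↦ hnn (p.1, p.2 + 1)) (a := (j, 0)) (by simp)
      exact this
    rw [if_pos (by norm_num)] at h1
    rw [if_pos (by norm_num)]
    rw [show j + (0 + 1) = j + 1 by ring] at h1
    rw [show j + 1 + 0 = j + 1 by ring]
    have h2 : ((1 + e).choose (j + 1) : ℝ) / (((j + 1 : ℕ) : ℝ) + 1) ≤
        (e : ℝ) ^ (j + 1) * Af (j + 1) + (e : ℝ) ^ j * Af (j + 1) := by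
      have e1 : (j + 1).factorial * (1 + e).choose (j + 1) ≤ (1 + e) * e ^ j := by
        rw [← Nat.descFactorial_eq_factorial_mul_choose, add_comm 1 e,
          Nat.succ_descFactorial_succ]
        exact Nat.mul_le_mul_left _ (Nat.descFactorial_le_pow _ _)
      have e2 : ((j + 1).factorial : ℝ) * ((1 + e).choose (j + 1) : ℝ) ≤
          (1 + (e : ℝ)) * (e : ℝ) ^ j := by exact_mod_cast e1
      have e3 : Af (j + 1) = 1 / ((((j + 1 : ℕ) : ℝ) + 1) * ((j + 1).factorial : ℝ)) := by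
        unfold Af
        rw [Nat.factorial_succ (j + 1)]
        push_cast
        rfl
      rw [e3]
      have hf : (0 : ℝ) < ((j + 1).factorial : ℝ) := by positivity
      have hj : (0 : ℝ) < (((j + 1 : ℕ) : ℝ) + 1) := by positivity
      rw [← add_mul, mul_one_div, div_le_div_iff₀ hj (by positivity)]
      have h4 := mul_le_mul_of_nonneg_left e2 hj.le
      have e5 : (e : ℝ) ^ (j + 1) + (e : ℝ) ^ j = (1 + (e : ℝ)) * (e : ℝ) ^ j := by ring
      rw [e5]
      linarith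
    linarith

lemma Qs_nonneg (e k : ℕ) : 0 ≤ coeff k (Qs e) := by
  rw [Qs_coeff]
  positivity

lemma qf_le (η : ι → ℕ) (n : ℕ) :
    qf (fun i ↦ 1 + η i) n ≤ ∑ p ∈ antidiagonal n, T φ2 (fun i ↦ (η i : ℝ)) p.1 p.2 := by
  unfold qf
  refine (coeff_prod_le (fun i ↦ Qs (1 + η i)) (fun i ↦ dgH (Ph φ2 (η i : ℝ)))
    (fun i m ↦ Qs_nonneg _ _) (fun i m ↦ Qs_le _ _) univ n).trans ?_
  rw [← map_prod]
  show coeff n (dg _) ≤ _
  rw [dg_coeff]
  exact le_rfl

/-- the binomial identity -/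
lemma bin_id (m s d : ℕ) (h : 1 ≤ m + s) :
    ((m + s + d).choose d : ℝ) * ((m + s).choose s : ℝ) * ((m : ℝ) + d)
      = ((m + s + d - 1).choose s : ℝ) * ((m : ℝ) + s + d) * ((d + m).choose d : ℝ) := by
  rcases Nat.eq_zero_or_pos (m + d) with h0 | h0
  · have hm : m = 0 := by omega
    have hd : d = 0 := by omega
    subst hm hd
    rw [Nat.choose_eq_zero_of_lt (by omega : 0 + s + 0 - 1 < s)]
    simp
  · have f1 := Nat.add_choose_mul_factorial_mul_factorial (m + s) d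
    have f2 := Nat.add_choose_mul_factorial_mul_factorial m s
    have f3 := Nat.add_choose_mul_factorial_mul_factorial (m + d - 1) s
    have f4 := Nat.add_choose_mul_factorial_mul_factorial m d
    have e3 : m + d - 1 + s = m + s + d - 1 := by omega
    rw [e3] at f3
    have g1 : (m + s + d).factorial = (m + s + d) * (m + s + d - 1).factorial := by
      rw [← Nat.mul_factorial_pred (by omega : m + s + d ≠ 0)]
    have g2 : (m + d).factorial = (m + d) * (m + d - 1).factorial := by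
      rw [← Nat.mul_factorial_pred (by omega : m + d ≠ 0)]
    rw [g1] at f1
    rw [g2] at f4
    have f1' : ((m + s + d).choose d : ℝ) * ((m + s).factorial : ℝ) * (d.factorial : ℝ)
        = ((m : ℝ) + s + d) * ((m + s + d - 1).factorial : ℝ) := by exact_mod_cast f1
    have f2' : ((m + s).choose s : ℝ) * (m.factorial : ℝ) * (s.factorial : ℝ)
        = ((m + s).factorial : ℝ) := by exact_mod_cast f2
    have f3' : ((m + s + d - 1).choose s : ℝ) * ((m + d - 1).factorial : ℝ) * (s.factorial : ℝ)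
        = ((m + s + d - 1).factorial : ℝ) := by exact_mod_cast f3
    have f4' : ((d + m).choose d : ℝ) * (m.factorial : ℝ) * (d.factorial : ℝ)
        = ((m : ℝ) + d) * ((m + d - 1).factorial : ℝ) := by
      rw [add_comm d m]
      exact_mod_cast f4
    have p1 : (0 : ℝ) < (m.factorial : ℝ) := by positivity
    have p2 : (0 : ℝ) < (s.factorial : ℝ) := by positivity
    have p3 : (0 : ℝ) < (d.factorial : ℝ) := by positivity
    have p4 : (0 : ℝ) < ((m + d - 1).factorial : ℝ) := by positivity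
    have p5 : (0 : ℝ) < ((m + s).factorial : ℝ) := by positivity
    have key : (((m + s + d).choose d : ℝ) * ((m + s).choose s : ℝ) * ((m : ℝ) + d)) *
        ((m + s).factorial * d.factorial * (m.factorial * s.factorial) * (m + d - 1).factorial)
        = (((m + s + d - 1).choose s : ℝ) * ((m : ℝ) + s + d) * ((d + m).choose d : ℝ)) *
        ((m + s).factorial * d.factorial * (m.factorial * s.factorial) * (m + d - 1).factorial) := by
      have l1 : (((m + s + d).choose d : ℝ) * ((m + s).choose s : ℝ) * ((m : ℝ) + d)) *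
        ((m + s).factorial * d.factorial * (m.factorial * s.factorial) * (m + d - 1).factorial)
        = (((m + s + d).choose d : ℝ) * ((m + s).factorial : ℝ) * (d.factorial : ℝ)) *
          (((m + s).choose s : ℝ) * (m.factorial : ℝ) * (s.factorial : ℝ)) *
          (((m : ℝ) + d) * ((m + d - 1).factorial : ℝ)) := by ring
      have l2 : (((m + s + d - 1).choose s : ℝ) * ((m : ℝ) + s + d) * ((d + m).choose d : ℝ)) *
        ((m + s).factorial * d.factorial * (m.factorial * s.factorial) * (m + d - 1).factorial)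
        = (((m + s + d - 1).choose s : ℝ) * ((m + d - 1).factorial : ℝ) * (s.factorial : ℝ)) *
          ((m : ℝ) + s + d) * (((d + m).choose d : ℝ) * (m.factorial : ℝ) * (d.factorial : ℝ)) *
          ((m + s).factorial : ℝ) := by ring
      rw [l1, l2, f1', f2', f3', f4']
      ring
    exact mul_right_cancel₀ (by positivity) key

lemma T2_le (x : ι → ℝ) (hx : ∀ i, 0 ≤ x i) (d : ℕ) (hd : Fintype.card ι = d + 1) (k m s : ℕ)
    (hms : m + s = k + 3) :
    ((k + 3 + d).choose d : ℝ) * T φ2 x m s ≤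
      ((KN.a (k + 3) (d + 1) : ℚ) : ℝ) * (((k + 2 + d).choose s : ℝ) * hs x m) := by
  have h := corr φ2 φ2_nonneg φ2_lc x hx m s
  rw [hs_one d hd] at h
  have e : T φ2 (fun _ : ι ↦ (1 : ℝ)) m s
      = ((d + 1).choose s : ℝ) * coeff (m + s) (fs ^ (d + 1 - s) * (X * G1) ^ s) := by
    unfold T W
    rw [Finset.prod_const, Finset.card_univ, hd]
    exact T2_val (d + 1) m s
  rw [e, hms] at h
  have hb := T2_bound k d s (by omega)
  have hH : 0 ≤ hs x m := by
    rw [hs_formula]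
    exact Finset.sum_nonneg fun l _ ↦ Finset.prod_nonneg fun i _ ↦ pow_nonneg (hx i) _
  have hid := bin_id m s d (by omega)
  rw [hms] at hid
  have hk : (m : ℝ) + s = (k : ℝ) + 3 := by exact_mod_cast hms
  have e2 : k + 3 + d - 1 = k + 2 + d := by omega
  rw [e2, hk] at hid
  have hch : (k + 3).choose s = (k + 3).choose s := rfl
  set A := ((KN.a (k + 3) (d + 1) : ℚ) : ℝ) with hA
  have hA0 : 0 ≤ A := by rw [hA]; exact_mod_cast KN.a_nonneg _ _
  set L := ((d + 1).choose s : ℝ) * coeff (k + 3) (fs ^ (d + 1 - s) * (X * G1) ^ s) with hL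
  set c1 := ((k + 3 + d).choose d : ℝ) with hc1
  set c2 := ((d + m).choose d : ℝ) with hc2
  have hc1p : 0 < c1 := by
    rw [hc1]
    exact_mod_cast Nat.choose_pos (by omega)
  have hc2p : 0 < c2 := by
    rw [hc2]
    exact_mod_cast Nat.choose_pos (by omega)
  have hnp : (0 : ℝ) < (k : ℝ) + 3 + d := by positivity
  have h1 : (k : ℝ) + 3 + d - s = (m : ℝ) + d := by linarith
  rw [h1] at hb
  -- multiply
  have h2 : (((k : ℝ) + 3 + d) * c2) * (c1 * T φ2 x m s) ≤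
      (((k : ℝ) + 3 + d) * c2) * (A * (((k + 2 + d).choose s : ℝ) * hs x m)) := by
    have h3 := mul_le_mul_of_nonneg_left h (by positivity : 0 ≤ c1 * ((k : ℝ) + 3 + d))
    have h4 := mul_le_mul_of_nonneg_left (mul_le_mul_of_nonneg_right hb hH) hc1p.le
    calc (((k : ℝ) + 3 + d) * c2) * (c1 * T φ2 x m s)
        = c1 * ((k : ℝ) + 3 + d) * (c2 * T φ2 x m s) := by ring
      _ ≤ c1 * ((k : ℝ) + 3 + d) * (L * hs x m) := h3
      _ = c1 * (((k : ℝ) + 3 + d) * L * hs x m) := by ring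
      _ ≤ c1 * (((k + 3).choose s : ℝ) * A * ((m : ℝ) + d) * hs x m) := h4
      _ = (c1 * ((k + 3).choose s : ℝ) * ((m : ℝ) + d)) * (A * hs x m) := by ring
      _ = (((k + 2 + d).choose s : ℝ) * ((k : ℝ) + 3 + d) * c2) * (A * hs x m) := by rw [hid]
      _ = _ := by ring
  exact le_of_mul_le_mul_left h2 (by positivity)

/-- **the homogeneous case, all degrees at least two** -/
theorem HK1 (η : ι → ℕ) (d : ℕ) (hd : Fintype.card ι = d + 1) (k : ℕ) :
    ((k + 3 + d).choose d : ℝ) * qf (fun i ↦ 1 + η i) (k + 3) ≤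
      ((KN.a (k + 3) (d + 1) : ℚ) : ℝ) *
        (hs (fun i ↦ 1 + (η i : ℝ)) (k + 3) - hs (fun i ↦ 1 + (η i : ℝ)) (k + 2)) := by
  set x : ι → ℝ := fun i ↦ (η i : ℝ) with hx
  have hx0 : ∀ i, 0 ≤ x i := fun i ↦ by rw [hx]; positivity
  have h1 := qf_le η (k + 3)
  have h2 : ((k + 3 + d).choose d : ℝ) * qf (fun i ↦ 1 + η i) (k + 3) ≤
      ((KN.a (k + 3) (d + 1) : ℚ) : ℝ) *
        ∑ p ∈ antidiagonal (k + 3), ((k + 2 + d).choose p.2 : ℝ) * hs x p.1 := by
    refine (mul_le_mul_of_nonneg_left h1 (by positivity)).trans ?_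
    rw [Finset.mul_sum, Finset.mul_sum]
    apply Finset.sum_le_sum
    intro p hp
    exact T2_le x hx0 d hd k p.1 p.2 (HasAntidiagonal.mem_antidiagonal.mp hp)
  refine h2.trans (le_of_eq ?_)
  congr 1
  rw [hs_shift x d hd (k + 3), hs_shift x d hd (k + 2)]
  rw [show k + 3 = k + 2 + 1 by ring, Finset.Nat.sum_antidiagonal_succ' (n := k + 2),
    Finset.Nat.sum_antidiagonal_succ' (n := k + 2)]
  have e : ∀ p ∈ antidiagonal (k + 2), ((k + 2 + 1 + d).choose (p.2 + 1) : ℝ) * hs x p.1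
      = ((k + 2 + d).choose (p.2 + 1) : ℝ) * hs x p.1 + ((k + 2 + d).choose p.2 : ℝ) * hs x p.1 := by
    intro p _
    rw [show k + 2 + 1 + d = k + 2 + d + 1 by ring, Nat.choose_succ_succ]
    push_cast
    ring
  rw [Finset.sum_congr rfl e, Finset.sum_add_distrib]
  simp only [Nat.choose_zero_right]
  ring

/-- the sequence `h` is monotone -/
lemma hs_mono (η : ι → ℕ) (d : ℕ) (hd : Fintype.card ι = d + 1) (n : ℕ) :
    hs (fun i ↦ 1 + (η i : ℝ)) n ≤ hs (fun i ↦ 1 + (η i : ℝ)) (n + 1) := by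
  set x : ι → ℝ := fun i ↦ (η i : ℝ) with hx
  have hx0 : ∀ i, 0 ≤ x i := fun i ↦ by rw [hx]; positivity
  have hH : ∀ m, 0 ≤ hs x m := by
    intro m
    rw [hs_formula]
    exact Finset.sum_nonneg fun l _ ↦ Finset.prod_nonneg fun i _ ↦ pow_nonneg (hx0 i) _
  rw [hs_shift x d hd n, hs_shift x d hd (n + 1), Finset.Nat.sum_antidiagonal_succ']
  have e : ∑ p ∈ antidiagonal n, ((n + d).choose p.2 : ℝ) * hs x p.1 ≤
      ∑ p ∈ antidiagonal n, ((n + 1 + d).choose (p.2 + 1) : ℝ) * hs x p.1 := by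
    apply Finset.sum_le_sum
    intro p _
    apply mul_le_mul_of_nonneg_right _ (hH _)
    rw [show n + 1 + d = n + d + 1 by ring, Nat.choose_succ_succ]
    push_cast
    have : (0 : ℝ) ≤ ((n + d).choose (p.2 + 1) : ℝ) := by positivity
    linarith
  have := hH (n + 1)
  simp only [Nat.choose_zero_right]
  push_cast
  linarith

/-- the alternating sum -/
noncomputable def Bv (H : ℕ → ℝ) (c : ℝ) (n : ℕ) : ℝ :=
  ∑ t ∈ range (n + 1), (-1 : ℝ) ^ t * H (n - t) - (-1) ^ n * c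

lemma Bv_zero (H : ℕ → ℝ) (c : ℝ) : Bv H c 0 = H 0 - c := by
  unfold Bv
  simp

lemma Bv_succ (H : ℕ → ℝ) (c : ℝ) (n : ℕ) : Bv H c (n + 1) = H (n + 1) - Bv H c n := by
  unfold Bv
  rw [Finset.sum_range_succ']
  have e : ∑ t ∈ range (n + 1), (-1 : ℝ) ^ (t + 1) * H (n + 1 - (t + 1))
      = - ∑ t ∈ range (n + 1), (-1 : ℝ) ^ t * H (n - t) := by
    rw [← Finset.sum_neg_distrib]
    apply Finset.sum_congr rfl
    intro t _
    rw [Nat.add_sub_add_right, pow_succ]
    ring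
  rw [e, pow_succ]
  simp
  ring

lemma Bv_bounds (H : ℕ → ℝ) (c : ℝ) (h0 : H 0 = 1) (hc0 : 0 ≤ c) (hc1 : c ≤ 1)
    (hm : ∀ n, H n ≤ H (n + 1)) (n : ℕ) : 0 ≤ Bv H c n ∧ Bv H c n ≤ H n := by
  induction n with
  | zero => rw [Bv_zero, h0]; constructor <;> linarith
  | succ n ih =>
    rw [Bv_succ]
    have := hm n
    constructor <;> linarith [ih.1, ih.2]

lemma Bv_ge (H : ℕ → ℝ) (c : ℝ) (h0 : H 0 = 1) (hc0 : 0 ≤ c) (hc1 : c ≤ 1)
    (hm : ∀ n, H n ≤ H (n + 1)) (n : ℕ) : H (n + 1) - H n ≤ Bv H c (n + 1) := by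
  rw [Bv_succ]
  linarith [(Bv_bounds H c h0 hc0 hc1 hm n).2]

omit [DecidableEq ι] in
lemma qf_restrict (ε : ι → ℕ) (n : ℕ) :
    qf ε n = qf (fun i : {i // 1 ≤ ε i} ↦ ε i) n := by
  unfold qf
  congr 1
  rw [← Fintype.prod_subtype_mul_prod_subtype (fun i ↦ 1 ≤ ε i) (fun i ↦ Qs (ε i))]
  have : ∏ i : {i // ¬ 1 ≤ ε i}, Qs (ε i) = 1 := by
    apply Finset.prod_eq_one
    rintro ⟨i, hi⟩ _
    have : ε i = 0 := by omega
    simp only [this]
    exact Qs_zero
  rw [this, mul_one]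

lemma hs_restrict (ε : ι → ℕ) (n : ℕ) :
    hs (fun i ↦ (ε i : ℝ)) n = hs (fun i : {i // 1 ≤ ε i} ↦ (ε i : ℝ)) n := by
  rw [hs_series, hs_series]
  congr 1
  rw [← Fintype.prod_subtype_mul_prod_subtype (fun i ↦ 1 ≤ ε i)
    (fun i ↦ (PowerSeries.mk fun k ↦ (ε i : ℝ) ^ k : PowerSeries ℝ))]
  have : ∏ i : {i // ¬ 1 ≤ ε i}, (PowerSeries.mk fun k ↦ (ε i : ℝ) ^ k : PowerSeries ℝ) = 1 := by
    apply Finset.prod_eq_one
    rintro ⟨i, hi⟩ _
    have : ε i = 0 := by omega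
    simp only [this]
    ext k
    rw [PowerSeries.coeff_mk, PowerSeries.coeff_one]
    rcases k with _ | k
    · simp
    · simp
  rw [this, mul_one]

lemma hs_zero (x : ι → ℝ) : hs x 0 = 1 := by
  rw [hs_formula]
  simp

/-- **the homogeneous case** -/
theorem HK (ε : ι → ℕ) (d : ℕ) (hd : Fintype.card ι = d + 1) (k : ℕ) (c : ℝ) (hc0 : 0 ≤ c)
    (hc1 : c ≤ 1) (hc : (∀ i, ε i = 0) → c = 1) :
    qf ε (k + 3) ≤ ((KN.R (k + 3) d : ℚ) : ℝ) * Bv (hs fun i ↦ (ε i : ℝ)) c (k + 3) := by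
  have hBr : Bv (hs fun i ↦ (ε i : ℝ)) c (k + 3)
      = Bv (hs fun i : {i // 1 ≤ ε i} ↦ (ε i : ℝ)) c (k + 3) := by
    have : (hs fun i ↦ (ε i : ℝ)) = hs fun i : {i // 1 ≤ ε i} ↦ (ε i : ℝ) := by
      funext n
      exact hs_restrict ε n
    rw [this]
  rw [hBr, qf_restrict]
  rcases Nat.eq_zero_or_pos (Fintype.card {i // 1 ≤ ε i}) with h0 | h0
  · have hemp : IsEmpty {i // 1 ≤ ε i} := Fintype.card_eq_zero_iff.mp h0
    have hall : ∀ i, ε i = 0 := by
      intro i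
      by_contra hne
      exact hemp.false ⟨i, by omega⟩
    have hc' := hc hall
    have hq : qf (fun i : {i // 1 ≤ ε i} ↦ ε i) (k + 3) = 0 := by
      unfold qf
      rw [Finset.univ_eq_empty, Finset.prod_empty, PowerSeries.coeff_one, if_neg (by omega)]
    have hH : ∀ m, hs (fun i : {i // 1 ≤ ε i} ↦ (ε i : ℝ)) m = if m = 0 then 1 else 0 := by
      intro m
      rw [hs_series, Finset.univ_eq_empty, Finset.prod_empty, PowerSeries.coeff_one]
    have hB : ∀ n, Bv (hs fun i : {i // 1 ≤ ε i} ↦ (ε i : ℝ)) c n = 0 := by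
      intro n
      induction n with
      | zero => rw [Bv_zero, hH, hc']; simp
      | succ n ih => rw [Bv_succ, hH, ih]; simp
    rw [hq, hB, mul_zero]
  · obtain ⟨d', hd'⟩ : ∃ d', Fintype.card {i // 1 ≤ ε i} = d' + 1 :=
      ⟨Fintype.card {i // 1 ≤ ε i} - 1, by omega⟩
    have hle : d' ≤ d := by
      have := Fintype.card_subtype_le (fun i ↦ 1 ≤ ε i)
      omega
    set η : {i // 1 ≤ ε i} → ℕ := fun i ↦ ε i - 1 with hη
    have e1 : (fun i : {i // 1 ≤ ε i} ↦ ε i) = fun i ↦ 1 + η i := by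
      funext i
      have := i.2
      simp only [hη]
      omega
    have e2 : (fun i : {i // 1 ≤ ε i} ↦ (ε i : ℝ)) = fun i ↦ 1 + (η i : ℝ) := by
      funext i
      have h : ε i = 1 + η i := congrFun e1 i
      rw [h]
      push_cast
      rfl
    rw [e1, e2]
    have h1 := HK1 η d' hd' k
    have hmono : ∀ n, hs (fun i ↦ 1 + (η i : ℝ)) n ≤ hs (fun i ↦ 1 + (η i : ℝ)) (n + 1) :=
      hs_mono η d' hd'
    have h2 := Bv_ge (hs fun i ↦ 1 + (η i : ℝ)) c (hs_zero _) hc0 hc1 hmono (k + 2)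
    rw [show k + 2 + 1 = k + 3 by ring] at h2
    have h3 := hmono (k + 2)
    rw [show k + 2 + 1 = k + 3 by ring] at h3
    have hR : ((KN.R (k + 3) d' : ℚ) : ℝ) ≤ ((KN.R (k + 3) d : ℚ) : ℝ) := by
      exact_mod_cast KN.R_mono' (k + 3) hle
    have hR0 : (0 : ℝ) ≤ ((KN.R (k + 3) d' : ℚ) : ℝ) := by
      exact_mod_cast (KN.R_pos (k + 3) d').le
    have hRe : ((KN.R (k + 3) d' : ℚ) : ℝ) * ((k + 3 + d').choose d' : ℝ)
        = ((KN.a (k + 3) (d' + 1) : ℚ) : ℝ) := by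
      unfold KN.R
      have : (k + 3 + d').choose (k + 3) = (k + 3 + d').choose d' := Nat.choose_symm_add
      rw [this]
      push_cast
      rw [div_mul_cancel₀]
      have : 0 < (k + 3 + d').choose d' := Nat.choose_pos (by omega)
      positivity
    have hcp : (0 : ℝ) < ((k + 3 + d').choose d' : ℝ) := by
      exact_mod_cast Nat.choose_pos (by omega)
    rw [← hRe] at h1
    have h4 : qf (fun i ↦ 1 + η i) (k + 3) ≤ ((KN.R (k + 3) d' : ℚ) : ℝ) *
        (hs (fun i ↦ 1 + (η i : ℝ)) (k + 3) - hs (fun i ↦ 1 + (η i : ℝ)) (k + 2)) := by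
      refine le_of_mul_le_mul_left (h1.trans (le_of_eq ?_)) hcp
      ring
    refine h4.trans ?_
    have h5 : 0 ≤ hs (fun i ↦ 1 + (η i : ℝ)) (k + 3) - hs (fun i ↦ 1 + (η i : ℝ)) (k + 2) := by
      linarith
    calc _ ≤ ((KN.R (k + 3) d : ℚ) : ℝ) *
        (hs (fun i ↦ 1 + (η i : ℝ)) (k + 3) - hs (fun i ↦ 1 + (η i : ℝ)) (k + 2)) :=
          mul_le_mul_of_nonneg_right hR h5
      _ ≤ _ := mul_le_mul_of_nonneg_left h2 (hR0.trans hR)

end Pool.Agent.Helper87.KM
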