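import Pool.Agent.Helper87.KM.Phi

/-!
The key inequality for the homogeneous case and the value of the second family at `1`.
-/

namespace Pool.Agent.Helper87.KM

open Finset PowerSeries

lemma sum3 (F : ℕ → ℚ) (k : ℕ) : ∑ i ∈ range (k + 2 + 1), F i
    = F 0 + F 1 + F 2 + ∑ i ∈ range k, F (i + 3) := by
  rw [Finset.sum_range_succ', Finset.sum_range_succ', Finset.sum_range_succ']
  ring

lemma sum2 (F : ℕ → ℚ) (k : ℕ) : ∑ i ∈ range (k + 1 + 1), F i
    = F 0 + F 1 + ∑ i ∈ range k, F (i + 2) := by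
  rw [Finset.sum_range_succ', Finset.sum_range_succ']
  ring

lemma a_ge2 (k r : ℕ) : KN.a (k + 1) r + KN.a k r / 2 ≤ KN.a (k + 1) (r + 1) := by
  rw [KN.a_conv, sum2]
  have h : 0 ≤ ∑ i ∈ range k, KN.a (k + 1 - (i + 2)) r / ((i + 2 + 1).factorial : ℚ) :=
    Finset.sum_nonneg fun i _ ↦ div_nonneg (KN.a_nonneg _ _) (by positivity)
  simp only [Nat.sub_zero, Nat.add_sub_cancel]
  norm_num [Nat.factorial]
  norm_num [Nat.factorial] at h
  linarith

lemma a_ge3 (k r : ℕ) :
    KN.a (k + 2) r + KN.a (k + 1) r / 2 + KN.a k r / 6 ≤ KN.a (k + 2) (r + 1) := by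
  rw [KN.a_conv, sum3]
  have h : 0 ≤ ∑ i ∈ range k, KN.a (k + 2 - (i + 3)) r / ((i + 3 + 1).factorial : ℚ) :=
    Finset.sum_nonneg fun i _ ↦ div_nonneg (KN.a_nonneg _ _) (by positivity)
  have e0 : k + 2 - 0 = k + 2 := rfl
  have e1 : k + 2 - 1 = k + 1 := by omega
  have e2 : k + 2 - 2 = k := by omega
  rw [e0, e1, e2]
  norm_num [Nat.factorial]
  norm_num [Nat.factorial] at h
  linarith

lemma S1 : ∀ r n : ℕ, (r.choose n : ℚ) ≤ 2 ^ n * KN.a n r
  | r, 0 => by rw [KN.a_zero_left]; simp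
  | 0, n + 1 => by rw [KN.a_succ_zero]; simp
  | r + 1, n + 1 => by
    have h1 := S1 r (n + 1)
    have h2 := S1 r n
    have h3 := a_ge2 n r
    rw [Nat.choose_succ_succ]
    push_cast
    have h4 : (0 : ℚ) < 2 ^ (n + 1) := by positivity
    have h5 := mul_le_mul_of_nonneg_left h3 h4.le
    have e : (2 : ℚ) ^ (n + 1) * (KN.a (n + 1) r + KN.a n r / 2)
        = 2 ^ (n + 1) * KN.a (n + 1) r + 2 ^ n * KN.a n r := by ring
    linarith

lemma S2 : ∀ r n : ℕ, (r.choose (n + 1) : ℚ) + (2 / 3) * n * (r.choose n : ℚ)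
    ≤ 2 ^ (n + 1) * KN.a (n + 1) r
  | 0, n => by
    rw [KN.a_succ_zero]
    rcases n with _ | n
    · simp
    · simp
  | r + 1, 0 => by
    rw [show 0 + 1 = 1 from rfl, KN.a_n1]
    push_cast
    norm_num
    linarith
  | r + 1, n + 1 => by
    have h1 := S2 r (n + 1)
    have h2 := S2 r n
    have h3 := a_ge3 n r
    have h6 := S1 r n
    have e1 : (r + 1).choose (n + 1 + 1) = r.choose (n + 1) + r.choose (n + 1 + 1) :=
      Nat.choose_succ_succ r (n + 1)
    have e2 : (r + 1).choose (n + 1) = r.choose n + r.choose (n + 1) := Nat.choose_succ_succ r n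
    rw [e1, e2]
    push_cast at h1 ⊢
    have h4 : (0 : ℚ) < 2 ^ (n + 2) := by positivity
    have h5 := mul_le_mul_of_nonneg_left h3 h4.le
    have e : (2 : ℚ) ^ (n + 2) * (KN.a (n + 2) r + KN.a (n + 1) r / 2 + KN.a n r / 6)
        = 2 ^ (n + 2) * KN.a (n + 2) r + 2 ^ (n + 1) * KN.a (n + 1) r
          + (2 / 3) * (2 ^ n * KN.a n r) := by ring
    rw [e] at h5
    have e3 : n + 1 + 1 = n + 2 := rfl
    rw [e3] at h1 ⊢
    nlinarith

/-- the key inequality -/
lemma key1 (k d : ℕ) : ((k : ℚ) + 3 + d) * ((d + 1).choose (k + 3) : ℚ)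
    ≤ d * (2 ^ (k + 3) * KN.a (k + 3) (d + 1)) := by
  have h := S2 (d + 1) (k + 2)
  push_cast at h
  have e0 : k + 2 + 1 = k + 3 := rfl
  rw [e0] at h
  have hc : ((k : ℚ) + 3) * ((d + 1).choose (k + 3) : ℚ)
      ≤ (2 / 3) * d * ((k : ℚ) + 2) * ((d + 1).choose (k + 2) : ℚ) := by
    have h1 := Nat.choose_succ_right_eq (d + 1) (k + 2)
    obtain ⟨q, hq⟩ : ∃ q, q = d + 1 - (k + 2) := ⟨_, rfl⟩
    rw [← hq] at h1
    have h2 : (((d + 1).choose (k + 2 + 1) * (k + 2 + 1) : ℕ) : ℚ)
        = (((d + 1).choose (k + 2) * q : ℕ) : ℚ) := by exact_mod_cast h1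
    rw [e0] at h2
    push_cast at h2
    have h3 : ((q : ℕ) : ℚ) ≤ d := by
      have : q ≤ d := by omega
      exact_mod_cast this
    have h4 : (0 : ℚ) ≤ ((d + 1).choose (k + 2) : ℚ) := by positivity
    have h5 := mul_le_mul_of_nonneg_left h3 h4
    have h6 : 0 ≤ (k : ℚ) * d * ((d + 1).choose (k + 2) : ℚ) := by positivity
    have h7 : 0 ≤ (d : ℚ) * ((d + 1).choose (k + 2) : ℚ) := by positivity
    nlinarith
  have hd : (0 : ℚ) ≤ d := by positivity
  have h8 := mul_le_mul_of_nonneg_left h hd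
  nlinarith

/-- the series `(e^x - 1 - x)/x^2` -/
noncomputable def G1 : PowerSeries ℝ := PowerSeries.mk fun k ↦ Af (k + 1)

lemma fs_eq : fs = 1 + X * G1 := by
  ext n
  rcases n with _ | n
  · rw [fs_coeff]; simp
  · rw [fs_coeff, map_add, PowerSeries.coeff_succ_X_mul, PowerSeries.coeff_one, if_neg (by omega)]
    unfold G1
    rw [PowerSeries.coeff_mk, zero_add]
    rfl

lemma G1_nonneg (k : ℕ) : ∀ n, 0 ≤ coeff n (G1 ^ k) := by
  induction k with
  | zero => intro n; rw [pow_zero, PowerSeries.coeff_one]; split_ifs <;> norm_num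
  | succ k ih =>
    intro n
    rw [pow_succ, PowerSeries.coeff_mul]
    apply Finset.sum_nonneg
    intro p _
    apply mul_nonneg (ih _)
    unfold G1
    rw [PowerSeries.coeff_mk]
    exact (Af_pos _).le

lemma g_coeff (i n : ℕ) : coeff n ((X * G1) ^ i : PowerSeries ℝ)
    = if i ≤ n then coeff (n - i) (G1 ^ i) else 0 := by
  rw [mul_pow, PowerSeries.coeff_X_pow_mul']

lemma g_nonneg (i n : ℕ) : 0 ≤ coeff n ((X * G1) ^ i : PowerSeries ℝ) := by
  rw [g_coeff]
  split_ifs
  · exact G1_nonneg _ _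
  · exact le_rfl

lemma g_top (n : ℕ) : coeff n ((X * G1) ^ n : PowerSeries ℝ) = (1 / 2) ^ n := by
  have e : PowerSeries.constantCoeff G1 = 1 / 2 := by
    rw [← PowerSeries.coeff_zero_eq_constantCoeff_apply]
    unfold G1 Af
    rw [PowerSeries.coeff_mk]
    norm_num [Nat.factorial]
  rw [g_coeff, if_pos le_rfl, Nat.sub_self, PowerSeries.coeff_zero_eq_constantCoeff, map_pow, e]

/-- the value of the second family at `1` -/
lemma T2_val (r m s : ℕ) :
    coeff s (coeff m ((Ph φ2 1) ^ r)) = (r.choose s : ℝ) * coeff (m + s) (fs ^ (r - s) * (X * G1) ^ s) := by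
  have e : Ph φ2 1 = PowerSeries.map (PowerSeries.C (R := ℝ)) fs
      + PowerSeries.C (X : PowerSeries ℝ) * PowerSeries.map (PowerSeries.C (R := ℝ)) G1 := by
    ext m s
    have e0 : coeff m (PowerSeries.C (X : PowerSeries ℝ) *
        PowerSeries.map (PowerSeries.C (R := ℝ)) G1) = X * PowerSeries.C (coeff m G1) := by
      rw [PowerSeries.coeff_C_mul, PowerSeries.coeff_map]
    unfold Ph
    rw [PowerSeries.coeff_mk, map_add, e0, PowerSeries.coeff_map, map_add, one_pow, map_one,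
      one_mul, φ2_coeff, PowerSeries.coeff_C, fs_coeff]
    unfold G1
    rw [PowerSeries.coeff_mk]
    rcases s with _ | _ | s
    · simp [Af]
    · simp
    · rw [PowerSeries.coeff_succ_X_mul, PowerSeries.coeff_C, if_neg (by omega), if_neg (by omega),
        if_neg (by omega), add_zero]
  rw [e, add_pow, map_sum, map_sum]
  have hterm : ∀ j ∈ range (r + 1), coeff s (coeff m
      ((PowerSeries.map (PowerSeries.C (R := ℝ)) fs) ^ j *
        (PowerSeries.C (X : PowerSeries ℝ) * PowerSeries.map (PowerSeries.C (R := ℝ)) G1) ^ (r - j)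
        * ((r.choose j : ℕ) : PowerSeries (PowerSeries ℝ))))
      = if r - j = s then (r.choose j : ℝ) * coeff m (fs ^ j * G1 ^ (r - j)) else 0 := by
    intro j _
    have e1 : (PowerSeries.map (PowerSeries.C (R := ℝ)) fs) ^ j *
        (PowerSeries.C (X : PowerSeries ℝ) * PowerSeries.map (PowerSeries.C (R := ℝ)) G1) ^ (r - j)
        * ((r.choose j : ℕ) : PowerSeries (PowerSeries ℝ))
        = PowerSeries.C (X ^ (r - j) : PowerSeries ℝ) *
          PowerSeries.map (PowerSeries.C (R := ℝ))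
            (PowerSeries.C (r.choose j : ℝ) * (fs ^ j * G1 ^ (r - j))) := by
      rw [mul_pow, map_mul, map_mul, map_pow, map_pow, map_pow, PowerSeries.map_C, map_natCast,
        map_natCast]
      ring
    rw [e1, PowerSeries.coeff_C_mul, PowerSeries.coeff_map, PowerSeries.coeff_C_mul,
      PowerSeries.coeff_X_pow_mul']
    split_ifs with h1 h2 h2
    · rw [h2, Nat.sub_self]
      simp
    · rw [PowerSeries.coeff_C, if_neg (by omega)]
    · omega
    · rfl
  rw [Finset.sum_congr rfl hterm]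
  rcases Nat.lt_or_ge r s with h | h
  · rw [Nat.choose_eq_zero_of_lt h]
    rw [Finset.sum_eq_zero]
    · simp
    · intro j _
      rw [if_neg (by omega)]
  · rw [Finset.sum_eq_single (r - s)]
    · rw [if_pos (by omega), Nat.sub_sub_self h, Nat.choose_symm h, mul_pow]
      congr 1
      have e2 : fs ^ (r - s) * (X ^ s * G1 ^ s) = X ^ s * (fs ^ (r - s) * G1 ^ s) := by ring
      rw [e2, PowerSeries.coeff_X_pow_mul', if_pos (by omega), Nat.add_sub_cancel]
    · intro j hj hne
      have := Finset.mem_range.mp hj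
      rw [if_neg (by omega)]
    · intro hn
      exfalso
      apply hn
      rw [Finset.mem_range]
      omega

/-- expansion in powers of `g` -/
lemma T2_sum (r n s : ℕ) :
    (r.choose s : ℝ) * coeff n (fs ^ (r - s) * (X * G1) ^ s)
      = ∑ i ∈ range (r + 1), (i.choose s : ℝ) * ((r.choose i : ℝ) * coeff n ((X * G1) ^ i)) := by
  rcases Nat.lt_or_ge r s with h | h
  · rw [Nat.choose_eq_zero_of_lt h]
    symm
    rw [Finset.sum_eq_zero]
    · simp
    · intro i hi
      have := Finset.mem_range.mp hi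
      rw [Nat.choose_eq_zero_of_lt (by omega : i < s)]
      simp
  · have e1 : r + 1 = s + (r - s + 1) := by omega
    rw [e1, Finset.sum_range_add]
    have z : ∑ x ∈ range s, (x.choose s : ℝ) * ((r.choose x : ℝ) * coeff n ((X * G1) ^ x)) = 0 := by
      apply Finset.sum_eq_zero
      intro i hi
      have := Finset.mem_range.mp hi
      rw [Nat.choose_eq_zero_of_lt (by omega : i < s)]
      simp
    rw [z, zero_add, fs_eq, add_comm (1 : PowerSeries ℝ), add_pow, Finset.sum_mul, map_sum,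
      Finset.mul_sum]
    apply Finset.sum_congr rfl
    intro j hj
    have hj' := Finset.mem_range.mp hj
    have e2 : (X * G1) ^ j * 1 ^ (r - s - j) * (((r - s).choose j : ℕ) : PowerSeries ℝ)
        * (X * G1) ^ s = PowerSeries.C (((r - s).choose j : ℕ) : ℝ) * (X * G1) ^ (s + j) := by
      rw [one_pow, map_natCast, pow_add]
      ring
    rw [e2, PowerSeries.coeff_C_mul]
    have h3 := Nat.choose_mul (n := r) (k := s + j) (s := s) (by omega)
    rw [Nat.add_sub_cancel_left] at h3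
    have h4 : ((r.choose (s + j) : ℕ) : ℝ) * (((s + j).choose s : ℕ) : ℝ)
        = ((r.choose s : ℕ) : ℝ) * (((r - s).choose j : ℕ) : ℝ) := by
      exact_mod_cast h3
    linear_combination (-(coeff n ((X * G1) ^ (s + j)))) * h4

/-- the bound for the second family at `1` -/
lemma T2_bound (k d s : ℕ) (hs : s ≤ k + 3) :
    ((k : ℝ) + 3 + d) * ((((d + 1).choose s : ℕ) : ℝ) *
      coeff (k + 3) (fs ^ (d + 1 - s) * (X * G1) ^ s))
    ≤ ((k + 3).choose s : ℝ) * ((KN.a (k + 3) (d + 1) : ℚ) : ℝ) * ((k : ℝ) + 3 + d - s) := by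
  rw [T2_sum]
  set n := k + 3 with hn
  set r := d + 1 with hr
  set ω : ℕ → ℝ := fun i ↦ (r.choose i : ℝ) * coeff n ((X * G1) ^ i) with hω
  have ω0 : ∀ i, 0 ≤ ω i := fun i ↦ mul_nonneg (by positivity) (g_nonneg i n)
  have ωz : ∀ i, n < i → ω i = 0 := by
    intro i hi
    simp only [hω]
    rw [g_coeff, if_neg (by omega), mul_zero]
  have ωn : ω n = (r.choose n : ℝ) * (1 / 2) ^ n := by
    simp only [hω]
    rw [g_top]
  have ha : ((KN.a n r : ℚ) : ℝ) = ∑ i ∈ range (r + 1), ω i := by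
    have h := T2_sum r n 0
    rw [Nat.choose_zero_right, Nat.sub_zero, pow_zero, mul_one] at h
    rw [a_coeff]
    simp only [Nat.cast_one, one_mul, Nat.choose_zero_right] at h
    exact h
  -- the pointwise bound
  have hp : ∀ i, (n : ℝ) * ((i.choose s : ℝ) * ω i) ≤
      ((n : ℝ) - s) * (n.choose s : ℝ) * ω i + (if i = n then (s : ℝ) * (n.choose s : ℝ) * ω n else 0) := by
    intro i
    rcases Nat.lt_trichotomy i n with h | h | h
    · rw [if_neg (by omega), add_zero]
      have h1 : i.choose s ≤ (n - 1).choose s := Nat.choose_le_choose s (by omega)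
      have h2 := Nat.choose_mul_succ_eq (n - 1) s
      rw [show n - 1 + 1 = n by omega] at h2
      have h3 : (((n - 1).choose s : ℕ) : ℝ) * (n : ℝ) = (n.choose s : ℝ) * ((n : ℝ) - s) := by
        have : ((((n - 1).choose s * n : ℕ)) : ℝ) = ((n.choose s * (n - s) : ℕ) : ℝ) := by
          exact_mod_cast h2
        push_cast at this
        rw [Nat.cast_sub hs] at this
        exact this
      have h4 : (i.choose s : ℝ) ≤ ((n - 1).choose s : ℝ) := by exact_mod_cast h1
      have h5 : (n : ℝ) * (i.choose s : ℝ) ≤ ((n : ℝ) - s) * (n.choose s : ℝ) := by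
        have hn0 : (0 : ℝ) ≤ n := by positivity
        nlinarith
      have h6 := mul_le_mul_of_nonneg_right h5 (ω0 i)
      linarith
    · rw [if_pos h, h]
      apply le_of_eq
      ring
    · rw [ωz i h, if_neg (by omega)]
      simp
  have hsum : (n : ℝ) * ∑ i ∈ range (r + 1), (i.choose s : ℝ) * ω i ≤
      ((n : ℝ) - s) * (n.choose s : ℝ) * ((KN.a n r : ℚ) : ℝ) + (s : ℝ) * (n.choose s : ℝ) * ω n := by
    rw [Finset.mul_sum, ha, Finset.mul_sum]
    refine (Finset.sum_le_sum fun i _ ↦ hp i).trans ?_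
    rw [Finset.sum_add_distrib, Finset.sum_ite_eq']
    split_ifs
    · exact le_rfl
    · have : 0 ≤ (s : ℝ) * (n.choose s : ℝ) * ω n := mul_nonneg (by positivity) (ω0 n)
      linarith
  have hk := key1 k d
  have hk' : ((n : ℝ) + d) * ω n ≤ d * ((KN.a n r : ℚ) : ℝ) := by
    rw [ωn]
    have h1 : ((((k : ℚ) + 3 + d) * (r.choose n : ℚ) : ℚ) : ℝ) ≤
        ((d * (2 ^ n * KN.a n r) : ℚ) : ℝ) := by exact_mod_cast hk
    push_cast at h1
    have hn' : (n : ℝ) = (k : ℝ) + 3 := by rw [hn]; push_cast; ring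
    rw [hn']
    have h2 : (0 : ℝ) < 2 ^ n := by positivity
    have h3 : ((k : ℝ) + 3 + d) * ((r.choose n : ℝ) * (1 / 2) ^ n) =
        (((k : ℝ) + 3 + d) * (r.choose n : ℝ)) / 2 ^ n := by
      rw [one_div, inv_pow]; field_simp
    rw [h3, div_le_iff₀ h2]
    linarith
  have hn0 : (0 : ℝ) < n := by rw [hn]; positivity
  have hnd : (n : ℝ) + d = (k : ℝ) + 3 + d := by rw [hn]; push_cast; ring
  -- combine
  have hc0 : 0 ≤ (s : ℝ) * (n.choose s : ℝ) := by positivity
  have h7 := mul_le_mul_of_nonneg_left hk' hc0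
  have h8 := mul_le_mul_of_nonneg_left hsum (by positivity : (0 : ℝ) ≤ (n : ℝ) + d)
  have h9 : (n : ℝ) * (((n : ℝ) + d) * ∑ i ∈ range (r + 1), (i.choose s : ℝ) * ω i) ≤
      (n : ℝ) * ((n.choose s : ℝ) * ((KN.a n r : ℚ) : ℝ) * ((n : ℝ) + d - s)) := by
    nlinarith
  have h10 := le_of_mul_le_mul_left h9 hn0
  rw [hnd] at h10
  exact h10

end Pool.Agent.Helper87.KM
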