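import Pool.Agent.Helper87.KM.Stir

/-!
The main inequality of the multidegree case.
-/

namespace Pool.Agent.Helper87.KM

open Finset PowerSeries

variable {ι : Type*} [Fintype ι] [DecidableEq ι]

lemma Gam_nonneg (ε : ι → ℕ) (j a b : ℕ) : 0 ≤ Gam ε j a b := GS_nonneg ε univ j a b

lemma qf_nonneg (ε : ι → ℕ) (j : ℕ) : 0 ≤ qf ε j := by
  unfold qf
  rw [PowerSeries.coeff_prod]
  exact Finset.sum_nonneg fun l _ ↦ Finset.prod_nonneg fun i _ ↦ Qs_nonneg _ _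

omit [DecidableEq ι] in
/-- regrouping of a triple sum -/
lemma regroup (G : ℕ → ℕ → ℕ → ℝ) (n : ℕ) :
    ∑ p ∈ antidiagonal n, ∑ q ∈ antidiagonal p.1, G q.1 q.2 p.2
      = ∑ p ∈ antidiagonal n, ∑ q ∈ antidiagonal p.2, G p.1 q.1 q.2 := by
  rw [Finset.sum_sigma', Finset.sum_sigma']
  apply Finset.sum_nbij'
    (fun x ↦ ⟨(x.2.1, x.2.2 + x.1.2), (x.2.2, x.1.2)⟩)
    (fun x ↦ ⟨(x.1.1 + x.2.1, x.2.2), (x.1.1, x.2.1)⟩)
  · rintro ⟨⟨m, b⟩, ⟨j, a⟩⟩ h
    simp only [mem_sigma, HasAntidiagonal.mem_antidiagonal] at h ⊢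
    obtain ⟨h1, h2⟩ := h
    exact ⟨by rw [← h1, ← h2]; ring, trivial⟩
  · rintro ⟨⟨j, t⟩, ⟨a, b⟩⟩ h
    simp only [mem_sigma, HasAntidiagonal.mem_antidiagonal] at h ⊢
    obtain ⟨h1, h2⟩ := h
    exact ⟨by rw [← h1, ← h2]; ring, trivial⟩
  · rintro ⟨⟨m, b⟩, ⟨j, a⟩⟩ h
    simp only [mem_sigma, HasAntidiagonal.mem_antidiagonal] at h
    simp only [h.2]
  · rintro ⟨⟨m, b⟩, ⟨j, a⟩⟩ h
    simp only [mem_sigma, HasAntidiagonal.mem_antidiagonal] at h
    simp only [h.2]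
  · rintro ⟨⟨m, b⟩, ⟨j, a⟩⟩ h
    rfl

/-- the excess -/
noncomputable def Exc (ε : ι → ℕ) (r : ℕ → ℝ) (n : ℕ) : ℝ :=
  ∑ p ∈ antidiagonal n, ∑ q ∈ antidiagonal p.2, Gam ε p.1 q.1 q.2 * (r q.2 - r p.2)

/-- the decomposition -/
lemma decomp (ε : ι → ℕ) (r : ℕ → ℝ) (n : ℕ) :
    ∑ p ∈ antidiagonal n, T φ1 (fun i ↦ (ε i : ℝ)) p.1 p.2 * r p.2
      = ∑ p ∈ antidiagonal n, qf ε p.1 * ((KN.a p.2 (p.1 + Fintype.card ι) : ℚ) : ℝ) * r p.2
        + Exc ε r n := by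
  have h1 : ∑ p ∈ antidiagonal n, T φ1 (fun i ↦ (ε i : ℝ)) p.1 p.2 * r p.2
      = ∑ p ∈ antidiagonal n, ∑ q ∈ antidiagonal p.1, Gam ε q.1 q.2 p.2 * r p.2 := by
    apply Finset.sum_congr rfl
    intro p _
    rw [← Gam_A, Finset.sum_mul]
  rw [h1, regroup (fun j a b ↦ Gam ε j a b * r b) n]
  unfold Exc
  rw [← Finset.sum_add_distrib]
  apply Finset.sum_congr rfl
  intro p _
  rw [← Gam_B, Finset.sum_mul, ← Finset.sum_add_distrib]
  apply Finset.sum_congr rfl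
  intro q _
  ring

/-- lower bound for the excess -/
lemma Exc_ge (ε : ι → ℕ) (r : ℕ → ℝ) (n : ℕ) (hn : 3 ≤ n)
    (hr : ∀ s t, s ≤ t → t ≤ n → r t ≤ r s) :
    ((n : ℝ) - 1) / 3 * qf ε (n - 1) * (r 0 - r 1) +
      ((n : ℝ) - 2) * (2 * (Fintype.card ι : ℝ) + 1) / 12 * qf ε (n - 2) * (r 1 - r 2)
      ≤ Exc ε r n := by
  have hterm : ∀ p ∈ antidiagonal n, ∀ q ∈ antidiagonal p.2,
      0 ≤ Gam ε p.1 q.1 q.2 * (r q.2 - r p.2) := by
    intro p hp q hq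
    have hp' : p.1 + p.2 = n := HasAntidiagonal.mem_antidiagonal.mp hp
    have hq' : q.1 + q.2 = p.2 := HasAntidiagonal.mem_antidiagonal.mp hq
    apply mul_nonneg (Gam_nonneg _ _ _ _)
    have := hr q.2 p.2 (by omega) (by omega)
    linarith
  unfold Exc
  -- the two terms
  have hsub : ({(n - 1, 1), (n - 2, 2)} : Finset (ℕ × ℕ)) ⊆ antidiagonal n := by
    intro p hp
    simp only [mem_insert, mem_singleton] at hp
    rw [HasAntidiagonal.mem_antidiagonal]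
    rcases hp with h | h <;> rw [h] <;> simp only <;> omega
  refine le_trans ?_ (Finset.sum_le_sum_of_subset_of_nonneg hsub fun p hp _ ↦
    Finset.sum_nonneg fun q hq ↦ hterm p hp q hq)
  rw [Finset.sum_pair (by simp)]
  have hlow1 := (low ε univ (n - 1)).2.1
  have hlow2 := (low ε univ (n - 2)).2.2.2
  have hn1 : ((n - 1 : ℕ) : ℝ) = (n : ℝ) - 1 := by
    rw [Nat.cast_sub (by omega)]; simp
  have hn2 : ((n - 2 : ℕ) : ℝ) = (n : ℝ) - 2 := by
    rw [Nat.cast_sub (by omega)]; simp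
  rw [hn1] at hlow1
  rw [hn2, Finset.card_univ] at hlow2
  have t1 : ((n : ℝ) - 1) / 3 * qf ε (n - 1) * (r 0 - r 1) ≤
      ∑ q ∈ antidiagonal ((n - 1, 1) : ℕ × ℕ).2,
        Gam ε ((n - 1, 1) : ℕ × ℕ).1 q.1 q.2 * (r q.2 - r ((n - 1, 1) : ℕ × ℕ).2) := by
    have hm : ((1, 0) : ℕ × ℕ) ∈ antidiagonal ((n - 1, 1) : ℕ × ℕ).2 := by simp
    have h := Finset.single_le_sum (f := fun q : ℕ × ℕ ↦
      Gam ε ((n - 1, 1) : ℕ × ℕ).1 q.1 q.2 * (r q.2 - r ((n - 1, 1) : ℕ × ℕ).2))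
      (fun q hq ↦ hterm (n - 1, 1) (hsub (by simp)) q hq) hm
    refine le_trans ?_ h
    simp only
    have h1 := hr 0 1 (by omega) (by omega)
    exact mul_le_mul_of_nonneg_right hlow1 (by linarith)
  have t2 : ((n : ℝ) - 2) * (2 * (Fintype.card ι : ℝ) + 1) / 12 * qf ε (n - 2) * (r 1 - r 2) ≤
      ∑ q ∈ antidiagonal ((n - 2, 2) : ℕ × ℕ).2,
        Gam ε ((n - 2, 2) : ℕ × ℕ).1 q.1 q.2 * (r q.2 - r ((n - 2, 2) : ℕ × ℕ).2) := by
    have hm : ((1, 1) : ℕ × ℕ) ∈ antidiagonal ((n - 2, 2) : ℕ × ℕ).2 := by simp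
    have h := Finset.single_le_sum (f := fun q : ℕ × ℕ ↦
      Gam ε ((n - 2, 2) : ℕ × ℕ).1 q.1 q.2 * (r q.2 - r ((n - 2, 2) : ℕ × ℕ).2))
      (fun q hq ↦ hterm (n - 2, 2) (hsub (by simp)) q hq) hm
    refine le_trans ?_ h
    simp only
    have h1 := hr 1 2 (by omega) (by omega)
    exact mul_le_mul_of_nonneg_right hlow2 (by linarith)
  exact add_le_add t1 t2

lemma hs_nonneg (x : ι → ℝ) (hx : ∀ i, 0 ≤ x i) (m : ℕ) : 0 ≤ hs x m := by
  rw [hs_formula]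
  exact Finset.sum_nonneg fun l _ ↦ Finset.prod_nonneg fun i _ ↦ pow_nonneg (hx i) _

/-- binomial identity -/
lemma bin_id2 (m s d : ℕ) : ((m + s + d).choose s : ℝ) * ((d + m).choose d : ℝ)
    = ((m + s + d).choose (m + s) : ℝ) * ((m + s).choose m : ℝ) := by
  have f1 := Nat.add_choose_mul_factorial_mul_factorial (m + d) s
  have f2 := Nat.add_choose_mul_factorial_mul_factorial m d
  have f3 := Nat.add_choose_mul_factorial_mul_factorial (m + s) d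
  have f4 := Nat.add_choose_mul_factorial_mul_factorial m s
  rw [show m + d + s = m + s + d by ring] at f1
  rw [← Nat.choose_symm_add] at f3 f4
  have f1' : ((m + s + d).choose s : ℝ) * ((m + d).factorial : ℝ) * (s.factorial : ℝ)
      = ((m + s + d).factorial : ℝ) := by exact_mod_cast f1
  have f2' : ((d + m).choose d : ℝ) * (m.factorial : ℝ) * (d.factorial : ℝ)
      = ((m + d).factorial : ℝ) := by
    rw [add_comm d m]
    exact_mod_cast f2
  have f3' : ((m + s + d).choose (m + s) : ℝ) * ((m + s).factorial : ℝ) * (d.factorial : ℝ)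
      = ((m + s + d).factorial : ℝ) := by exact_mod_cast f3
  have f4' : ((m + s).choose m : ℝ) * (m.factorial : ℝ) * (s.factorial : ℝ)
      = ((m + s).factorial : ℝ) := by exact_mod_cast f4
  have p1 : (0 : ℝ) < (m.factorial : ℝ) := by positivity
  have p2 : (0 : ℝ) < (s.factorial : ℝ) := by positivity
  have p3 : (0 : ℝ) < (d.factorial : ℝ) := by positivity
  have key : (((m + s + d).choose s : ℝ) * ((d + m).choose d : ℝ)) *
      ((m.factorial : ℝ) * s.factorial * d.factorial)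
      = (((m + s + d).choose (m + s) : ℝ) * ((m + s).choose m : ℝ)) *
      ((m.factorial : ℝ) * s.factorial * d.factorial) := by
    have l1 : (((m + s + d).choose s : ℝ) * ((d + m).choose d : ℝ)) *
      ((m.factorial : ℝ) * s.factorial * d.factorial)
      = ((m + s + d).choose s : ℝ) * (((d + m).choose d : ℝ) * (m.factorial : ℝ) *
        (d.factorial : ℝ)) * (s.factorial : ℝ) := by ring
    have l2 : (((m + s + d).choose (m + s) : ℝ) * ((m + s).choose m : ℝ)) *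
      ((m.factorial : ℝ) * s.factorial * d.factorial)
      = ((m + s + d).choose (m + s) : ℝ) * (((m + s).choose m : ℝ) * (m.factorial : ℝ) *
        (s.factorial : ℝ)) * (d.factorial : ℝ) := by ring
    rw [l1, l2, f2', f4', f1', f3']
  exact mul_right_cancel₀ (by positivity) key

/-- FKG in the final normalization -/
lemma T1_le (ε : ι → ℕ) (d : ℕ) (hd : Fintype.card ι = d + 1) (n : ℕ) (p : ℕ × ℕ)
    (hp : p ∈ antidiagonal n) :
    T φ1 (fun i ↦ (ε i : ℝ)) p.1 p.2 ≤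
      ((KN.R n d : ℚ) : ℝ) * (((n + d).choose p.2 : ℝ) * hs (fun i ↦ (ε i : ℝ)) p.1) := by
  obtain ⟨m, s⟩ := p
  have hms : m + s = n := HasAntidiagonal.mem_antidiagonal.mp hp
  subst hms
  simp only
  have h := corr1 d hd (fun i ↦ (ε i : ℝ)) (fun i ↦ by positivity) m s
  have hid := bin_id2 m s d
  have c1 : (0 : ℝ) < ((m + s + d).choose (m + s) : ℝ) := by
    exact_mod_cast Nat.choose_pos (by omega)
  have c2 : (0 : ℝ) < ((d + m).choose d : ℝ) := by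
    exact_mod_cast Nat.choose_pos (by omega)
  have hR : ((KN.R (m + s) d : ℚ) : ℝ) * ((m + s + d).choose (m + s) : ℝ)
      = ((KN.a (m + s) (d + 1) : ℚ) : ℝ) := by
    unfold KN.R
    push_cast
    rw [div_mul_cancel₀]
    exact c1.ne'
  rw [← hR] at h
  set H := hs (fun i ↦ (ε i : ℝ)) m with hH
  set R := ((KN.R (m + s) d : ℚ) : ℝ) with hRdef
  refine le_of_mul_le_mul_left (h.trans (le_of_eq ?_)) c2
  calc ((m + s).choose m : ℝ) * (R * ((m + s + d).choose (m + s) : ℝ)) * H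
      = R * H * (((m + s + d).choose (m + s) : ℝ) * ((m + s).choose m : ℝ)) := by ring
    _ = R * H * (((m + s + d).choose s : ℝ) * ((d + m).choose d : ℝ)) := by rw [hid]
    _ = _ := by ring

lemma rho_term (n d : ℕ) (p : ℕ × ℕ) (hp : p ∈ antidiagonal n) (x : ℝ) :
    ((KN.a p.2 (p.1 + (d + 1)) : ℚ) : ℝ) * (x / ((n + d).choose p.2 : ℝ))
      = ((KN.rho p.2 (n + d) : ℚ) : ℝ) * x := by
  have hp' : p.1 + p.2 = n := HasAntidiagonal.mem_antidiagonal.mp hp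
  unfold KN.rho KN.c
  rw [if_pos (by omega), show n + d + 1 - p.2 = p.1 + (d + 1) by omega]
  push_cast
  ring

/-- **Main inequality.** -/
theorem main_ineq (ε : ι → ℕ) (d n : ℕ) (hd : Fintype.card ι = d + 1) (hn : 3 ≤ n)
    (P R : ℕ → ℝ) (Z κ₁ κ₂ c : ℝ) (hc0 : 0 ≤ c) (hc1 : c ≤ 1)
    (hc : (∀ i, ε i = 0) → c = 1)
    (hP0 : P 0 = 1) (hR0 : R 0 = 1 - Z) (hZ : 0 ≤ Z) (hR : ∀ t, 0 ≤ R t)
    (hmono : ∀ s t, s ≤ t → t ≤ n →
      R t / ((n + d).choose t : ℝ) ≤ R s / ((n + d).choose s : ℝ))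
    (hκ₁ : 0 ≤ κ₁) (hκ₂ : 0 ≤ κ₂)
    (hP1 : P 1 ≤ R 1 / 2 + κ₁ / 2)
    (hK1 : ((n : ℝ) + d + 1) / ((n : ℝ) + d) * κ₁ ≤ R 0 - R 1 / ((n : ℝ) + d))
    (hP2 : P 2 ≤ ((KN.rho 2 (n + d) : ℚ) : ℝ) * R 2 + κ₂ * ((n : ℝ) + d - 1) / (6 * ((n : ℝ) + d)))
    (hK2 : ((n : ℝ) + d + 1) * κ₂ / (((n : ℝ) + d) * ((n : ℝ) + d - 1)) ≤
      R 1 / ((n : ℝ) + d) - R 2 / ((n + d).choose 2 : ℝ))
    (hP : ∀ t, 3 ≤ t → t ≤ n → P t ≤ ((KN.rho t (n + d) : ℚ) : ℝ) * R t) :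
    ∑ p ∈ antidiagonal n, qf ε p.1 * P p.2 ≤
      ((KN.R n d : ℚ) : ℝ) * (∑ p ∈ antidiagonal n, hs (fun i ↦ (ε i : ℝ)) p.1 * R p.2
        + Z * Bv (hs fun i ↦ (ε i : ℝ)) c n) := by
  obtain ⟨k, rfl⟩ : ∃ k, n = k + 3 := ⟨n - 3, by omega⟩
  set r : ℕ → ℝ := fun t ↦ R t / ((k + 3 + d).choose t : ℝ) with hr
  have hch : ∀ t, t ≤ k + 3 → (0 : ℝ) < ((k + 3 + d).choose t : ℝ) := by
    intro t ht
    exact_mod_cast Nat.choose_pos (by omega)
  set M : ℝ := (k : ℝ) + 3 + d with hM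
  have hM0 : 0 < M := by rw [hM]; positivity
  have hMM : (((k + 3 : ℕ) : ℝ)) + d = M := by rw [hM]; push_cast; ring
  rw [hMM] at hK1 hP2 hK2
  -- step 1
  have s1 : ∑ p ∈ antidiagonal (k + 3), T φ1 (fun i ↦ (ε i : ℝ)) p.1 p.2 * r p.2 ≤
      ((KN.R (k + 3) d : ℚ) : ℝ) * ∑ p ∈ antidiagonal (k + 3), hs (fun i ↦ (ε i : ℝ)) p.1 * R p.2 := by
    rw [Finset.mul_sum]
    apply Finset.sum_le_sum
    intro p hp
    have hp' : p.1 + p.2 = k + 3 := HasAntidiagonal.mem_antidiagonal.mp hp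
    have h1 := T1_le ε d hd (k + 3) p hp
    have hr0 : 0 ≤ r p.2 := div_nonneg (hR _) (hch _ (by omega)).le
    have h2 := mul_le_mul_of_nonneg_right h1 hr0
    refine h2.trans (le_of_eq ?_)
    have h3 : ((k + 3 + d).choose p.2 : ℝ) * r p.2 = R p.2 := by
      simp only [hr]
      rw [mul_div_cancel₀]
      exact (hch _ (by omega)).ne'
    rw [← h3]
    ring
  -- step 2
  have s2 := HK ε d hd k c hc0 hc1 hc
  have s3 := mul_le_mul_of_nonneg_left s2 hZ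
  have s4 := decomp ε r (k + 3)
  have hr0 : r 0 = R 0 := by simp [hr]
  have hr1 : r 1 = R 1 / M := by
    simp only [hr]
    rw [Nat.choose_one_right]
    congr 1
    rw [hM]
    push_cast
    ring
  have s5 := Exc_ge ε r (k + 3) (by omega) (fun s t hst ht ↦ hmono s t hst ht)
  rw [hd] at s4 s5
  have e4 : ∑ p ∈ antidiagonal (k + 3),
      qf ε p.1 * ((KN.a p.2 (p.1 + (d + 1)) : ℚ) : ℝ) * r p.2
      = ∑ p ∈ antidiagonal (k + 3), qf ε p.1 * (((KN.rho p.2 (k + 3 + d) : ℚ) : ℝ) * R p.2) := by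
    apply Finset.sum_congr rfl
    intro p hp
    rw [← rho_term (k + 3) d p hp (R p.2), mul_assoc]
  rw [e4] at s4
  -- the deficiency
  set δ : ℕ → ℝ := fun t ↦ if t = 0 then Z else if t = 1 then κ₁ / 2 else
    if t = 2 then κ₂ * (M - 1) / (6 * M) else 0 with hδ
  have hPδ : ∀ t, t ≤ k + 3 → P t ≤ ((KN.rho t (k + 3 + d) : ℚ) : ℝ) * R t + δ t := by
    intro t ht
    rcases t with _ | _ | _ | t
    · have : KN.rho 0 (k + 3 + d) = 1 := by
        unfold KN.rho KN.c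
        rw [if_pos (by omega), KN.a_zero_left]
        simp
      rw [this, hP0, hR0]
      simp [hδ]
    · have : KN.rho 1 (k + 3 + d) = 1 / 2 := by
        unfold KN.rho KN.c
        rw [if_pos (by omega), KN.a_n1, Nat.choose_one_right]
        rw [show k + 3 + d + 1 - 1 = k + 3 + d by omega]
        have : (((k + 3 + d : ℕ)) : ℚ) ≠ 0 := by positivity
        field_simp
      rw [zero_add, this]
      simp only [hδ]
      push_cast
      norm_num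
      linarith
    · simp only [hδ]
      norm_num
      exact hP2
    · simp only [hδ]
      rw [if_neg (by omega), if_neg (by omega), if_neg (by omega), add_zero]
      exact hP _ (by omega) ht
  have s6 : ∑ p ∈ antidiagonal (k + 3), qf ε p.1 * P p.2 ≤
      ∑ p ∈ antidiagonal (k + 3), qf ε p.1 * (((KN.rho p.2 (k + 3 + d) : ℚ) : ℝ) * R p.2)
        + ∑ p ∈ antidiagonal (k + 3), qf ε p.1 * δ p.2 := by
    rw [← Finset.sum_add_distrib]
    apply Finset.sum_le_sum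
    intro p hp
    have hp' : p.1 + p.2 = k + 3 := HasAntidiagonal.mem_antidiagonal.mp hp
    rw [← mul_add]
    exact mul_le_mul_of_nonneg_left (hPδ p.2 (by omega)) (qf_nonneg ε _)
  have s7 : ∑ p ∈ antidiagonal (k + 3), qf ε p.1 * δ p.2
      = qf ε (k + 3) * Z + qf ε (k + 2) * (κ₁ / 2) + qf ε (k + 1) * (κ₂ * (M - 1) / (6 * M)) := by
    rw [show k + 3 = k + 2 + 1 by ring, Finset.Nat.sum_antidiagonal_succ',
      show k + 2 = k + 1 + 1 by ring, Finset.Nat.sum_antidiagonal_succ',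
      Finset.Nat.sum_antidiagonal_succ']
    have z : ∑ p ∈ antidiagonal k, qf ε p.1 * δ (p.2 + 1 + 1 + 1) = 0 := by
      apply Finset.sum_eq_zero
      intro p _
      simp only [hδ]
      rw [if_neg (by omega), if_neg (by omega), if_neg (by omega), mul_zero]
    simp only
    rw [z]
    simp only [hδ]
    norm_num
    ring
  have s8 : qf ε (k + 2) * (κ₁ / 2) + qf ε (k + 1) * (κ₂ * (M - 1) / (6 * M)) ≤
      Exc ε r (k + 3) := by
    refine le_trans ?_ s5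
    rw [show k + 3 - 1 = k + 2 by omega, show k + 3 - 2 = k + 1 by omega, hr0, hr1]
    have q1 := qf_nonneg ε (k + 2)
    have q2 := qf_nonneg ε (k + 1)
    have hk0 : (0 : ℝ) ≤ k := by positivity
    have hd0 : (0 : ℝ) ≤ d := by positivity
    have b1 : κ₁ / 2 ≤ ((((k + 3 : ℕ) : ℝ)) - 1) / 3 * (R 0 - R 1 / M) := by
      have h1 : κ₁ ≤ (M + 1) / M * κ₁ := by
        have : 1 ≤ (M + 1) / M := by rw [le_div_iff₀ hM0]; linarith
        nlinarith
      have h2 : κ₁ ≤ R 0 - R 1 / M := h1.trans hK1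
      push_cast
      nlinarith
    have b2 : κ₂ * (M - 1) / (6 * M) ≤ ((((k + 3 : ℕ) : ℝ)) - 2) * (2 * (((d + 1 : ℕ)) : ℝ) + 1) / 12 *
        (R 1 / M - r 2) := by
      have hM1 : 0 < M - 1 := by rw [hM]; linarith
      have h0 : 0 ≤ ((((k + 3 : ℕ) : ℝ)) - 2) * (2 * (((d + 1 : ℕ)) : ℝ) + 1) / 12 := by
        push_cast
        have : (0 : ℝ) ≤ (k : ℝ) + 3 - 2 := by linarith
        positivity
      refine le_trans ?_ (mul_le_mul_of_nonneg_left hK2 h0)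
      rw [mul_div_assoc', div_le_div_iff₀ (by positivity) (by positivity)]
      have key : 0 ≤ κ₂ * M * (((k : ℝ) + 1) * (2 * (d : ℝ) + 3) * (M + 1) - 2 * (M - 1) ^ 2) := by
        apply mul_nonneg (mul_nonneg hκ₂ hM0.le)
        have e : ((k : ℝ) + 1) * (2 * (d : ℝ) + 3) * (M + 1) - 2 * (M - 1) ^ 2
            = 2 * k ^ 2 * d + 2 * k * d ^ 2 + k ^ 2 + 9 * k * d + 7 * k + 3 * d + 4 := by
          rw [hM]; ring
        rw [e]
        positivity
      push_cast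
      nlinarith [key]
    have c1 := mul_le_mul_of_nonneg_left b1 q1
    have c2 := mul_le_mul_of_nonneg_left b2 q2
    refine (add_le_add c1 c2).trans (le_of_eq ?_)
    ring
  -- conclusion
  have s9 : ((KN.R (k + 3) d : ℚ) : ℝ) * (∑ p ∈ antidiagonal (k + 3), hs (fun i ↦ (ε i : ℝ)) p.1 * R p.2
        + Z * Bv (hs fun i ↦ (ε i : ℝ)) c (k + 3))
      = ((KN.R (k + 3) d : ℚ) : ℝ) * (∑ p ∈ antidiagonal (k + 3), hs (fun i ↦ (ε i : ℝ)) p.1 * R p.2)
        + Z * (((KN.R (k + 3) d : ℚ) : ℝ) * Bv (hs fun i ↦ (ε i : ℝ)) c (k + 3)) := by ring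
  rw [s9]
  linarith

end Pool.Agent.Helper87.KM
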