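import Pool.Agent.Helper87.KM.Ser

/-!
The correlation inequality for the three families of coefficients.
-/

namespace Pool.Agent.Helper87.KM

open Finset PowerSeries

/-- the reciprocal factorial `1/(k+1)!` -/
noncomputable def Af (k : ℕ) : ℝ := 1 / ((k + 1).factorial : ℝ)

lemma Af_pos (k : ℕ) : 0 < Af k := by unfold Af; positivity

lemma Af_succ (k : ℕ) : Af (k + 1) = Af k / ((k : ℝ) + 2) := by
  unfold Af
  rw [Nat.factorial_succ (k + 1)]
  push_cast
  have h : ((k + 1).factorial : ℝ) ≠ 0 := by positivity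
  field_simp
  ring

lemma Af_log (x y : ℕ) (h : x ≤ y) : Af x * Af (y + 1) ≤ Af (x + 1) * Af y := by
  rw [Af_succ, Af_succ]
  have h1 := Af_pos x
  have h2 := Af_pos y
  have h3 : (x : ℝ) ≤ y := by exact_mod_cast h
  rw [mul_div_assoc', div_mul_eq_mul_div, div_le_div_iff₀ (by positivity) (by positivity)]
  have : 0 ≤ Af x * Af y := by positivity
  nlinarith

/-- first family -/
noncomputable def φ1 (m : ℕ) : PowerSeries ℝ := PowerSeries.mk fun s ↦ ((m + s).choose m : ℝ) * Af (m + s)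

/-- second family -/
noncomputable def φ2 (m : ℕ) : PowerSeries ℝ := PowerSeries.mk fun s ↦ if s ≤ 1 then Af (m + s) else 0

/-- third family -/
noncomputable def φ3 (m : ℕ) : PowerSeries ℝ := PowerSeries.mk fun s ↦ ((m + s).choose m : ℝ)

lemma hlc_of_term (φ : ℕ → PowerSeries ℝ)
    (h : ∀ a b s₁ s₂, a + 1 ≤ b → coeff s₁ (φ a) * coeff s₂ (φ (b + 1)) ≤
      coeff s₁ (φ (a + 1)) * coeff s₂ (φ b)) :
    ∀ a b s, a + 1 ≤ b → coeff s (φ a * φ (b + 1)) ≤ coeff s (φ (a + 1) * φ b) := by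
  intro a b s hab
  rw [PowerSeries.coeff_mul, PowerSeries.coeff_mul]
  exact Finset.sum_le_sum fun p _ ↦ h a b p.1 p.2 hab

lemma φ1_coeff (m s : ℕ) : coeff s (φ1 m) =
    1 / ((m.factorial : ℝ) * (s.factorial : ℝ) * ((m : ℝ) + s + 1)) := by
  unfold φ1
  rw [PowerSeries.coeff_mk]
  unfold Af
  have h := Nat.add_choose_mul_factorial_mul_factorial m s
  rw [← Nat.choose_symm_add] at h
  have h' : ((m + s).choose m : ℝ) * (m.factorial : ℝ) * (s.factorial : ℝ) = ((m + s).factorial : ℝ) := by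
    exact_mod_cast h
  have h1 : (m.factorial : ℝ) ≠ 0 := by positivity
  have h2 : (s.factorial : ℝ) ≠ 0 := by positivity
  have h3 : ((m + s).factorial : ℝ) ≠ 0 := by positivity
  have h4 : ((m : ℝ) + s + 1) ≠ 0 := by positivity
  rw [Nat.factorial_succ]
  push_cast
  rw [mul_one_div, div_eq_div_iff (by positivity) (by positivity)]
  rw [← h']
  ring

lemma φ1_nonneg : ∀ m s, 0 ≤ coeff s (φ1 m) := by
  intro m s
  rw [φ1_coeff]
  positivity

lemma φ1_lc : ∀ a b s, a + 1 ≤ b → coeff s (φ1 a * φ1 (b + 1)) ≤ coeff s (φ1 (a + 1) * φ1 b) := by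
  apply hlc_of_term
  intro a b s₁ s₂ hab
  obtain ⟨d, rfl⟩ : ∃ d, b = a + 1 + d := ⟨b - (a + 1), by omega⟩
  simp only [φ1_coeff]
  rw [Nat.factorial_succ (a + 1 + d), Nat.factorial_succ a]
  have h1 : (0 : ℝ) < (a.factorial : ℝ) := by positivity
  have h2 : (0 : ℝ) < ((a + 1 + d).factorial : ℝ) := by positivity
  have h3 : (0 : ℝ) < (s₁.factorial : ℝ) := by positivity
  have h4 : (0 : ℝ) < (s₂.factorial : ℝ) := by positivity
  push_cast
  rw [div_mul_div_comm, div_mul_div_comm, mul_one, div_le_div_iff₀ (by positivity) (by positivity),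
    one_mul, one_mul]
  set P := (a.factorial : ℝ) * ((a + 1 + d).factorial : ℝ) * (s₁.factorial : ℝ) * (s₂.factorial : ℝ)
    with hP
  have hP0 : 0 ≤ P := by positivity
  have key : 0 ≤ P * (((a : ℝ) + 1 + d + 1) * ((a : ℝ) + s₁ + 1) * ((a : ℝ) + 1 + d + 1 + s₂ + 1)
      - ((a : ℝ) + 1) * ((a : ℝ) + 1 + s₁ + 1) * ((a : ℝ) + 1 + d + s₂ + 1)) := by
    apply mul_nonneg hP0
    have e : ((a : ℝ) + 1 + d + 1) * ((a : ℝ) + s₁ + 1) * ((a : ℝ) + 1 + d + 1 + s₂ + 1)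
      - ((a : ℝ) + 1) * ((a : ℝ) + 1 + s₁ + 1) * ((a : ℝ) + 1 + d + s₂ + 1)
      = (d : ℝ) * ((a : ℝ) + s₁ + 1) * ((a : ℝ) + 1 + d + s₂ + 1)
        + ((a : ℝ) + 1) * ((a : ℝ) + d + 2) + (s₁ : ℝ) * ((a : ℝ) + 1 + d + s₂ + 1)
        + ((a : ℝ) + 2 + d) * s₁ := by ring
    rw [e]
    positivity
  nlinarith [key]

lemma φ2_coeff (m s : ℕ) : coeff s (φ2 m) = if s ≤ 1 then Af (m + s) else 0 := by
  unfold φ2; rw [PowerSeries.coeff_mk]

lemma φ2_nonneg : ∀ m s, 0 ≤ coeff s (φ2 m) := by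
  intro m s
  rw [φ2_coeff]
  split_ifs
  · exact (Af_pos _).le
  · exact le_rfl

lemma φ2_lc : ∀ a b s, a + 1 ≤ b → coeff s (φ2 a * φ2 (b + 1)) ≤ coeff s (φ2 (a + 1) * φ2 b) := by
  apply hlc_of_term
  intro a b s₁ s₂ hab
  simp only [φ2_coeff]
  split_ifs with h1 h2
  · have h := Af_log (a + s₁) (b + s₂) (by omega)
    rw [show b + 1 + s₂ = b + s₂ + 1 by ring, show a + 1 + s₁ = a + s₁ + 1 by ring]
    exact h
  · simp
  · simp
  · simp

variable {ι : Type*} [Fintype ι] [DecidableEq ι]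

omit [DecidableEq ι] in
lemma hs_one (d : ℕ) (hd : Fintype.card ι = d + 1) (m : ℕ) :
    hs (fun _ : ι ↦ (1 : ℝ)) m = ((d + m).choose d : ℝ) := by
  unfold hs T W
  have e : Ph (fun _ ↦ (1 : PowerSeries ℝ)) (1 : ℝ) = PowerSeries.mk 1 := by
    unfold Ph
    ext m
    simp
  simp only [e]
  rw [Finset.prod_const, Finset.card_univ, hd, PowerSeries.mk_one_pow_eq_mk_choose_add,
    PowerSeries.coeff_mk]
  have : (((d + m).choose d : ℕ) : PowerSeries ℝ) = PowerSeries.C (((d + m).choose d : ℕ) : ℝ) := by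
    rw [map_natCast]
  rw [this, PowerSeries.coeff_C, if_pos rfl]

omit [DecidableEq ι] in
lemma T1_one (m s : ℕ) : T φ1 (fun _ : ι ↦ (1 : ℝ)) m s
    = ((m + s).choose m : ℝ) * ((KN.a (m + s) (Fintype.card ι) : ℚ) : ℝ) := by
  unfold T W
  have e : Ph φ1 (1 : ℝ) = sh fs := by
    ext m s
    unfold Ph
    rw [PowerSeries.coeff_mk, sh_coeff, fs_coeff]
    simp only [one_pow, map_one, one_mul]
    unfold φ1
    rw [PowerSeries.coeff_mk]
    rfl
  simp only [e]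
  rw [Finset.prod_const, Finset.card_univ, ← sh_pow, sh_coeff, a_coeff]

/-- **FKG.** -/
theorem corr1 (d : ℕ) (hd : Fintype.card ι = d + 1) (x : ι → ℝ) (hx : ∀ i, 0 ≤ x i) (m s : ℕ) :
    ((d + m).choose d : ℝ) * T φ1 x m s ≤
      ((m + s).choose m : ℝ) * ((KN.a (m + s) (d + 1) : ℚ) : ℝ) * hs x m := by
  have h := corr φ1 φ1_nonneg φ1_lc x hx m s
  rw [hs_one d hd, T1_one, hd] at h
  exact h

lemma φ3_eq (m : ℕ) : φ3 m = (PowerSeries.mk 1 : PowerSeries ℝ) ^ (m + 1) := by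
  rw [PowerSeries.mk_one_pow_eq_mk_choose_add]
  rfl

/-- the third family is exact -/
lemma T3 (x : ι → ℝ) (d : ℕ) (hd : Fintype.card ι = d + 1) (m s : ℕ) :
    T φ3 x m s = ((m + d + s).choose (m + d) : ℝ) * hs x m := by
  rw [T_formula, hs_formula, Finset.mul_sum]
  apply Finset.sum_congr rfl
  intro l hl
  have h := (Finset.mem_finsuppAntidiag.mp hl).1
  have e : ∏ i, φ3 (l i) = (PowerSeries.mk 1 : PowerSeries ℝ) ^ (m + d + 1) := by
    simp only [φ3_eq]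
    rw [Finset.prod_pow_eq_pow_sum]
    congr 1
    rw [Finset.sum_add_distrib, h, Finset.sum_const, Finset.card_univ, hd]
    simp
    ring
  rw [e, PowerSeries.mk_one_pow_eq_mk_choose_add, PowerSeries.coeff_mk]
  ring

lemma dg_Ph3 (x : ℝ) : dgH (Ph φ3 x) = PowerSeries.mk fun k ↦ (1 + x) ^ k := by
  ext k
  show coeff k (dg (Ph φ3 x)) = _
  rw [dg_coeff, PowerSeries.coeff_mk, add_comm (1 : ℝ) x, (Commute.all x 1).add_pow']
  apply Finset.sum_congr rfl
  intro p hp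
  have hp' : p.1 + p.2 = k := HasAntidiagonal.mem_antidiagonal.mp hp
  unfold Ph φ3
  rw [PowerSeries.coeff_mk, PowerSeries.coeff_C_mul, PowerSeries.coeff_mk, hp']
  simp
  ring

lemma hs_series (x : ι → ℝ) (n : ℕ) :
    hs x n = coeff n (∏ i, (PowerSeries.mk fun k ↦ (x i) ^ k : PowerSeries ℝ)) := by
  rw [hs_formula, PowerSeries.coeff_prod]
  apply Finset.sum_congr rfl
  intro l _
  simp only [PowerSeries.coeff_mk]

/-- `h_n(1+x) = ∑ binom(n+d, m+d) h_m(x)`, `d + 1` variables -/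
theorem hs_shift (x : ι → ℝ) (d : ℕ) (hd : Fintype.card ι = d + 1) (n : ℕ) :
    hs (fun i ↦ 1 + x i) n = ∑ p ∈ antidiagonal n, ((n + d).choose p.2 : ℝ) * hs x p.1 := by
  rw [hs_series]
  have e : ∏ i, (PowerSeries.mk fun k ↦ (1 + x i) ^ k : PowerSeries ℝ) = dgH (W φ3 x univ) := by
    unfold W
    rw [map_prod]
    apply Finset.prod_congr rfl
    intro i _
    rw [dg_Ph3]
  rw [e]
  show coeff n (dg (W φ3 x univ)) = _
  rw [dg_coeff]
  apply Finset.sum_congr rfl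
  intro p hp
  have hp' : p.1 + p.2 = n := HasAntidiagonal.mem_antidiagonal.mp hp
  have h := T3 x d hd p.1 p.2
  unfold T at h
  rw [h]
  congr 2
  rw [show p.1 + d + p.2 = n + d by omega]
  have : p.1 + d = n + d - p.2 := by omega
  rw [this, Nat.choose_symm (by omega)]

end Pool.Agent.Helper87.KM
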