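import Pool.Agent.Helper87.KM.GF
import Pool.Agent.Helper87.KN.Cert

/-!
Power series tools: the diagonal homomorphism, the shift homomorphism, the powers of `(e^x-1)/x`.
-/

namespace Pool.Agent.Helper87.KM

open Finset PowerSeries

section diag

variable {R : Type*} [CommRing R]

/-- the diagonal: both variables are replaced by one -/
noncomputable def dg (F : PowerSeries (PowerSeries R)) : PowerSeries R :=
  PowerSeries.mk fun m ↦ ∑ p ∈ antidiagonal m, coeff p.2 (coeff p.1 F)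

lemma dg_coeff (F : PowerSeries (PowerSeries R)) (m : ℕ) :
    coeff m (dg F) = ∑ p ∈ antidiagonal m, coeff p.2 (coeff p.1 F) := by
  unfold dg
  rw [PowerSeries.coeff_mk]

lemma dg_mul (F G : PowerSeries (PowerSeries R)) : dg (F * G) = dg F * dg G := by
  ext m
  rw [dg_coeff, PowerSeries.coeff_mul]
  simp only [dg_coeff, PowerSeries.coeff_mul, map_sum, Finset.sum_mul_sum]
  -- both sides are sums over quadruples
  rw [Finset.sum_sigma', Finset.sum_sigma', Finset.sum_sigma', Finset.sum_sigma']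
  apply Finset.sum_nbij'
    (fun x ↦ ⟨⟨(x.1.2.1 + x.2.1, x.1.2.2 + x.2.2), (x.1.2.1, x.2.1)⟩, (x.1.2.2, x.2.2)⟩)
    (fun x ↦ ⟨⟨(x.1.2.1 + x.2.1, x.1.2.2 + x.2.2), (x.1.2.1, x.2.1)⟩, (x.1.2.2, x.2.2)⟩)
  · rintro ⟨⟨⟨j, b⟩, ⟨j1, j2⟩⟩, ⟨b1, b2⟩⟩ h
    simp only [mem_sigma, HasAntidiagonal.mem_antidiagonal] at h ⊢
    obtain ⟨⟨h1, h2⟩, h3⟩ := h
    refine ⟨⟨?_, ?_⟩, ?_⟩
    · rw [← h1, ← h2, ← h3]; ring
    · trivial
    · trivial
  · rintro ⟨⟨⟨j, b⟩, ⟨j1, j2⟩⟩, ⟨b1, b2⟩⟩ h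
    simp only [mem_sigma, HasAntidiagonal.mem_antidiagonal] at h ⊢
    obtain ⟨⟨h1, h2⟩, h3⟩ := h
    refine ⟨⟨?_, ?_⟩, ?_⟩
    · rw [← h1, ← h2, ← h3]; ring
    · trivial
    · trivial
  · rintro ⟨⟨⟨j, b⟩, ⟨j1, j2⟩⟩, ⟨b1, b2⟩⟩ h
    simp only [mem_sigma, HasAntidiagonal.mem_antidiagonal] at h
    obtain ⟨⟨h1, h2⟩, h3⟩ := h
    simp only [h2, h3]
  · rintro ⟨⟨⟨j, b⟩, ⟨j1, j2⟩⟩, ⟨b1, b2⟩⟩ h
    simp only [mem_sigma, HasAntidiagonal.mem_antidiagonal] at h
    obtain ⟨⟨h1, h2⟩, h3⟩ := h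
    simp only [h2, h3]
  · rintro ⟨⟨⟨j, b⟩, ⟨j1, j2⟩⟩, ⟨b1, b2⟩⟩ h
    rfl

lemma dg_one : dg (1 : PowerSeries (PowerSeries R)) = 1 := by
  ext m
  rw [dg_coeff]
  rcases Nat.eq_zero_or_pos m with h | h
  · subst h
    simp
  · rw [PowerSeries.coeff_one, if_neg (by omega)]
    apply Finset.sum_eq_zero
    rintro ⟨i, j⟩ hij
    simp only [HasAntidiagonal.mem_antidiagonal] at hij
    simp only [PowerSeries.coeff_one]
    split_ifs with h1
    · rw [PowerSeries.coeff_one, if_neg (by omega)]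
    · simp

/-- the diagonal as a ring homomorphism -/
noncomputable def dgH : PowerSeries (PowerSeries R) →+* PowerSeries R where
  toFun := dg
  map_one' := dg_one
  map_mul' := dg_mul
  map_zero' := by ext m; rw [dg_coeff]; simp
  map_add' F G := by
    ext m
    rw [map_add, dg_coeff, dg_coeff, dg_coeff, ← Finset.sum_add_distrib]
    simp

end diag

/-- the shift `α(x) ↦ α(u + y)` -/
noncomputable def sh (α : PowerSeries ℝ) : PowerSeries (PowerSeries ℝ) :=
  PowerSeries.mk fun m ↦ PowerSeries.mk fun s ↦ ((m + s).choose m : ℝ) * coeff (m + s) α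

lemma sh_coeff (α : PowerSeries ℝ) (m s : ℕ) :
    coeff s (coeff m (sh α)) = ((m + s).choose m : ℝ) * coeff (m + s) α := by
  unfold sh
  rw [PowerSeries.coeff_mk, PowerSeries.coeff_mk]

lemma sh_mul (α β : PowerSeries ℝ) : sh (α * β) = sh α * sh β := by
  ext m s
  rw [sh_coeff, PowerSeries.coeff_mul, PowerSeries.coeff_mul, map_sum]
  simp only [PowerSeries.coeff_mul, sh_coeff]
  rw [Finset.mul_sum]
  have vand : ∀ p ∈ antidiagonal (m + s), (((m + s).choose m : ℕ) : ℝ)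
      = ∑ q ∈ antidiagonal m, ((p.1.choose q.1 : ℕ) : ℝ) * ((p.2.choose q.2 : ℕ) : ℝ) := by
    intro p hp
    rw [← HasAntidiagonal.mem_antidiagonal.mp hp, Nat.add_choose_eq]
    push_cast
    rfl
  have e1 : ∑ p ∈ antidiagonal (m + s), (((m + s).choose m : ℕ) : ℝ) * (coeff p.1 α * coeff p.2 β)
      = ∑ p ∈ antidiagonal (m + s), ∑ q ∈ antidiagonal m,
        (((p.1.choose q.1 : ℕ) : ℝ) * ((p.2.choose q.2 : ℕ) : ℝ)) * (coeff p.1 α * coeff p.2 β) := by
    apply Finset.sum_congr rfl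
    intro p hp
    rw [vand p hp, Finset.sum_mul]
  rw [e1, Finset.sum_comm]
  apply Finset.sum_congr rfl
  rintro ⟨q1, q2⟩ hq
  have hq' : q1 + q2 = m := HasAntidiagonal.mem_antidiagonal.mp hq
  simp only
  -- the terms with q1 ≤ p1 and q2 ≤ p2
  symm
  apply Finset.sum_of_injOn (fun t : ℕ × ℕ ↦ (q1 + t.1, q2 + t.2))
  · rintro ⟨a1, a2⟩ _ ⟨b1, b2⟩ _ h
    simp only [Prod.mk.injEq] at h
    simp only [Prod.mk.injEq]
    omega
  · rintro ⟨t1, t2⟩ ht
    have ht' : t1 + t2 = s := HasAntidiagonal.mem_antidiagonal.mp ht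
    rw [Finset.mem_coe, HasAntidiagonal.mem_antidiagonal]
    show q1 + t1 + (q2 + t2) = m + s
    omega
  · rintro ⟨p1, p2⟩ hp hn
    have hp' : p1 + p2 = m + s := HasAntidiagonal.mem_antidiagonal.mp hp
    simp only
    by_cases h1 : q1 ≤ p1
    · by_cases h2 : q2 ≤ p2
      · exfalso
        apply hn
        refine ⟨(p1 - q1, p2 - q2), ?_, ?_⟩
        · rw [Finset.mem_coe, HasAntidiagonal.mem_antidiagonal]
          omega
        · simp only [Prod.mk.injEq]
          omega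
      · rw [Nat.choose_eq_zero_of_lt (by omega : p2 < q2)]
        simp
    · rw [Nat.choose_eq_zero_of_lt (by omega : p1 < q1)]
      simp
  · rintro ⟨t1, t2⟩ _
    simp only
    ring

lemma sh_one : sh 1 = 1 := by
  ext m s
  rw [sh_coeff, PowerSeries.coeff_one, PowerSeries.coeff_one]
  rcases Nat.eq_zero_or_pos m with h | h
  · subst h
    simp [PowerSeries.coeff_one]
  · rw [if_neg (by omega), if_neg (by omega)]
    simp

lemma sh_pow (α : PowerSeries ℝ) (r : ℕ) : sh (α ^ r) = sh α ^ r := by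
  induction r with
  | zero => rw [pow_zero, pow_zero, sh_one]
  | succ r ih => rw [pow_succ, pow_succ, sh_mul, ih]

/-- the series `(e^x - 1)/x` -/
noncomputable def fs : PowerSeries ℝ := PowerSeries.mk fun k ↦ 1 / ((k + 1).factorial : ℝ)

lemma fs_coeff (k : ℕ) : coeff k fs = 1 / ((k + 1).factorial : ℝ) := by
  unfold fs; rw [PowerSeries.coeff_mk]

lemma a_coeff (j : ℕ) : ∀ n, ((KN.a n j : ℚ) : ℝ) = coeff n (fs ^ j) := by
  induction j with
  | zero =>
    intro n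
    rw [pow_zero, PowerSeries.coeff_one]
    rcases n with _ | n
    · rw [KN.a_zero_left]; simp
    · rw [KN.a_succ_zero]; simp
  | succ j ih =>
    intro n
    rw [KN.a_conv, pow_succ, PowerSeries.coeff_mul, Finset.Nat.sum_antidiagonal_eq_sum_range_succ
      (fun x y ↦ coeff x (fs ^ j) * coeff y fs), ← Finset.sum_range_reflect]
    push_cast
    apply Finset.sum_congr rfl
    intro i hi
    have hi' : i ≤ n := by have := Finset.mem_range.mp hi; omega
    rw [← ih, fs_coeff, Nat.sub_sub_self hi']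
    rw [mul_one_div]

end Pool.Agent.Helper87.KM
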