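import Pool.Agent.Helper87.KM.HK

/-!
The Stirling decomposition.
-/

namespace Pool.Agent.Helper87.KM

open Finset PowerSeries

lemma desc_id (e j : ℕ) :
    j * e.descFactorial j + e.descFactorial (j + 1) = e * e.descFactorial j := by
  rw [Nat.descFactorial_succ, ← add_mul]
  rcases Nat.lt_or_ge e j with h | h
  · rw [Nat.descFactorial_eq_zero_iff_lt.mpr h]
    simp
  · rw [Nat.add_sub_cancel' h]

lemma stir_pow (e m : ℕ) :
    ∑ j ∈ range (m + 1), Nat.stirlingSecond m j * e.descFactorial j = e ^ m := by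
  induction m with
  | zero => simp
  | succ m ih =>
    rw [Finset.sum_range_succ', Nat.stirlingSecond_succ_zero, zero_mul, add_zero]
    have e1 : ∀ j ∈ range (m + 1), Nat.stirlingSecond (m + 1) (j + 1) * e.descFactorial (j + 1)
        = (j + 1) * (Nat.stirlingSecond m (j + 1) * e.descFactorial (j + 1))
          + Nat.stirlingSecond m j * e.descFactorial (j + 1) := by
      intro j _
      rw [Nat.stirlingSecond_succ_succ]
      ring
    rw [Finset.sum_congr rfl e1, Finset.sum_add_distrib]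
    have e2 : ∑ j ∈ range (m + 1), (j + 1) * (Nat.stirlingSecond m (j + 1) * e.descFactorial (j + 1))
        = ∑ j ∈ range (m + 1), j * (Nat.stirlingSecond m j * e.descFactorial j) := by
      have h := Finset.sum_range_succ' (fun j ↦ j * (Nat.stirlingSecond m j * e.descFactorial j))
        (m + 1)
      rw [Finset.sum_range_succ, Nat.stirlingSecond_eq_zero_of_lt (by omega : m < m + 1)] at h
      simp only [zero_mul, mul_zero, add_zero] at h
      exact h.symm
    rw [e2, ← Finset.sum_add_distrib, pow_succ, ← ih, Finset.sum_mul]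
    apply Finset.sum_congr rfl
    intro j _
    have h := desc_id e j
    calc j * (Nat.stirlingSecond m j * e.descFactorial j)
          + Nat.stirlingSecond m j * e.descFactorial (j + 1)
        = Nat.stirlingSecond m j * (j * e.descFactorial j + e.descFactorial (j + 1)) := by ring
      _ = _ := by rw [h]; ring

lemma stir_conv (n : ℕ) : ∀ k, ∑ i ∈ range (n + 1), n.choose i * Nat.stirlingSecond i k
    = Nat.stirlingSecond (n + 1) (k + 1) := by
  induction n with
  | zero =>
    intro k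
    rw [zero_add, Finset.sum_range_one, Nat.choose_self, one_mul, Nat.stirlingSecond_succ_succ]
    simp
  | succ n ih =>
    intro k
    rw [Finset.sum_range_succ', Nat.choose_zero_right, one_mul]
    have e1 : ∀ i ∈ range (n + 1), (n + 1).choose (i + 1) * Nat.stirlingSecond (i + 1) k
        = n.choose i * Nat.stirlingSecond (i + 1) k
          + n.choose (i + 1) * Nat.stirlingSecond (i + 1) k := by
      intro i _
      rw [Nat.choose_succ_succ]
      ring
    rw [Finset.sum_congr rfl e1, Finset.sum_add_distrib, add_assoc]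
    have e2 : ∑ i ∈ range (n + 1), n.choose (i + 1) * Nat.stirlingSecond (i + 1) k
        + Nat.stirlingSecond 0 k = Nat.stirlingSecond (n + 1) (k + 1) := by
      rw [← ih k]
      have h := Finset.sum_range_succ' (fun i ↦ n.choose i * Nat.stirlingSecond i k) (n + 1)
      rw [Finset.sum_range_succ, Nat.choose_eq_zero_of_lt (by omega : n < n + 1), zero_mul,
        add_zero, Nat.choose_zero_right, one_mul] at h
      exact h.symm
    rw [e2]
    rcases k with _ | k
    · simp only [Nat.stirlingSecond_succ_zero, mul_zero, Finset.sum_const_zero, zero_add]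
      rw [Nat.stirlingSecond_one_right, Nat.stirlingSecond_one_right]
    · have e3 : ∀ i ∈ range (n + 1), n.choose i * Nat.stirlingSecond (i + 1) (k + 1)
          = (k + 1) * (n.choose i * Nat.stirlingSecond i (k + 1))
            + n.choose i * Nat.stirlingSecond i k := by
        intro i _
        rw [Nat.stirlingSecond_succ_succ]
        ring
      rw [Finset.sum_congr rfl e3, Finset.sum_add_distrib, ← Finset.mul_sum, ih, ih,
        Nat.stirlingSecond_succ_succ (n + 1) (k + 1)]
      ring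

lemma stir_conv' (j t : ℕ) : ∑ p ∈ antidiagonal t,
    (j + t).choose (j + p.1) * Nat.stirlingSecond (j + p.1) j
    = Nat.stirlingSecond (j + t + 1) (j + 1) := by
  rw [← stir_conv (j + t) j,
    Finset.Nat.sum_antidiagonal_eq_sum_range_succ_mk]
  rw [show j + t + 1 = j + (t + 1) by ring, Finset.sum_range_add]
  have z : ∑ x ∈ range j, (j + t).choose x * Nat.stirlingSecond x j = 0 := by
    apply Finset.sum_eq_zero
    intro i hi
    rw [Nat.stirlingSecond_eq_zero_of_lt (Finset.mem_range.mp hi), mul_zero]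
  rw [z, zero_add]

/-- the weights -/
noncomputable def gam (e j a b : ℕ) : ℝ :=
  ((j + a + b).choose (j + a) : ℝ) * (Nat.stirlingSecond (j + a) j : ℝ) *
    (e.descFactorial j : ℝ) * Af (j + a + b)

lemma gam_nonneg (e j a b : ℕ) : 0 ≤ gam e j a b := by
  unfold gam
  have := Af_pos (j + a + b)
  positivity

/-- the triple series -/
noncomputable def Gs (e : ℕ) : PowerSeries (PowerSeries (PowerSeries ℝ)) :=
  PowerSeries.mk fun j ↦ PowerSeries.mk fun a ↦ PowerSeries.mk fun b ↦ gam e j a b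

lemma Gs_coeff (e j a b : ℕ) : coeff b (coeff a (coeff j (Gs e))) = gam e j a b := by
  unfold Gs
  rw [PowerSeries.coeff_mk, PowerSeries.coeff_mk, PowerSeries.coeff_mk]

lemma dg_Gs (e : ℕ) : dgH (Gs e) = Ph φ1 (e : ℝ) := by
  ext m b
  show coeff b (coeff m (dg (Gs e))) = _
  rw [dg_coeff, map_sum]
  simp only [Gs_coeff]
  have e1 : ∀ p ∈ antidiagonal m, gam e p.1 p.2 b
      = (((Nat.stirlingSecond m p.1 * e.descFactorial p.1 : ℕ)) : ℝ) *
        (((m + b).choose m : ℝ) * Af (m + b)) := by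
    intro p hp
    have h := HasAntidiagonal.mem_antidiagonal.mp hp
    unfold gam
    rw [h]
    push_cast
    ring
  rw [Finset.sum_congr rfl e1, ← Finset.sum_mul, ← Nat.cast_sum,
    Finset.Nat.sum_antidiagonal_eq_sum_range_succ_mk]
  simp only
  rw [stir_pow]
  unfold Ph φ1
  rw [PowerSeries.coeff_mk, PowerSeries.coeff_C_mul, PowerSeries.coeff_mk]
  push_cast
  ring

lemma map_Gs (e : ℕ) : PowerSeries.map dgH (Gs e)
    = PowerSeries.mk fun j ↦ PowerSeries.C (coeff j (Qs e)) * fs ^ (j + 1) := by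
  ext j t
  rw [PowerSeries.coeff_map, PowerSeries.coeff_mk, PowerSeries.coeff_C_mul, ← a_coeff, Qs_coeff]
  show coeff t (dg (coeff j (Gs e))) = _
  rw [dg_coeff]
  simp only [Gs_coeff]
  have e1 : ∀ p ∈ antidiagonal t, gam e j p.1 p.2
      = ((((j + t).choose (j + p.1) * Nat.stirlingSecond (j + p.1) j : ℕ)) : ℝ) *
        ((e.descFactorial j : ℝ) * Af (j + t)) := by
    intro p hp
    have h := HasAntidiagonal.mem_antidiagonal.mp hp
    unfold gam
    rw [add_assoc j p.1 p.2, h]
    push_cast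
    ring
  rw [Finset.sum_congr rfl e1, ← Finset.sum_mul, ← Nat.cast_sum, stir_conv']
  unfold KN.a Af
  rw [Nat.descFactorial_eq_factorial_mul_choose, show t + (j + 1) = j + t + 1 by ring,
    Nat.factorial_succ j]
  push_cast
  have h1 : ((j + t + 1).factorial : ℝ) ≠ 0 := by positivity
  have h2 : (j.factorial : ℝ) ≠ 0 := by positivity
  have h3 : ((j : ℝ) + 1) ≠ 0 := by positivity
  field_simp

variable {ι : Type*} [Fintype ι] [DecidableEq ι]

/-- the product -/
noncomputable def GS (ε : ι → ℕ) (S : Finset ι) : PowerSeries (PowerSeries (PowerSeries ℝ)) :=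
  ∏ i ∈ S, Gs (ε i)

/-- the coefficients of the decomposition -/
noncomputable def Gam (ε : ι → ℕ) (j a b : ℕ) : ℝ := coeff b (coeff a (coeff j (GS ε univ)))

omit [DecidableEq ι] in
lemma Gam_A (ε : ι → ℕ) (m b : ℕ) :
    ∑ p ∈ antidiagonal m, Gam ε p.1 p.2 b = T φ1 (fun i ↦ (ε i : ℝ)) m b := by
  unfold Gam T W
  have h : dgH (GS ε univ) = ∏ i, Ph φ1 ((fun i ↦ (ε i : ℝ)) i) := by
    unfold GS
    rw [map_prod]
    exact Finset.prod_congr rfl fun i _ ↦ dg_Gs (ε i)
  rw [← h]
  show _ = coeff b (coeff m (dg _))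
  rw [dg_coeff, map_sum]

lemma Gam_B (ε : ι → ℕ) (j t : ℕ) :
    ∑ p ∈ antidiagonal t, Gam ε j p.1 p.2
      = qf ε j * ((KN.a t (j + Fintype.card ι) : ℚ) : ℝ) := by
  unfold Gam
  have h : PowerSeries.map dgH (GS ε univ)
      = ∏ i, (PowerSeries.mk fun j ↦ PowerSeries.C (coeff j (Qs (ε i))) * fs ^ (j + 1)) := by
    unfold GS
    rw [map_prod]
    exact Finset.prod_congr rfl fun i _ ↦ map_Gs (ε i)
  have h1 : ∑ p ∈ antidiagonal t, coeff p.2 (coeff p.1 (coeff j (GS ε univ)))
      = coeff t (coeff j (PowerSeries.map dgH (GS ε univ))) := by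
    rw [PowerSeries.coeff_map]
    show _ = coeff t (dg _)
    rw [dg_coeff]
  rw [h1, h, PowerSeries.coeff_prod, a_coeff]
  simp only [PowerSeries.coeff_mk]
  have e1 : ∀ l ∈ finsuppAntidiag (univ : Finset ι) j,
      ∏ i, (PowerSeries.C (coeff (l i) (Qs (ε i))) * fs ^ (l i + 1) : PowerSeries ℝ)
      = PowerSeries.C (∏ i, coeff (l i) (Qs (ε i))) * fs ^ (j + Fintype.card ι) := by
    intro l hl
    have hs := (Finset.mem_finsuppAntidiag.mp hl).1
    rw [Finset.prod_mul_distrib, map_prod, Finset.prod_pow_eq_pow_sum]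
    congr 2
    rw [Finset.sum_add_distrib, hs, Finset.sum_const, Finset.card_univ]
    simp
  rw [Finset.sum_congr rfl e1, ← Finset.sum_mul, ← map_sum, PowerSeries.coeff_C_mul]
  unfold qf
  rw [PowerSeries.coeff_prod]

lemma coeff3_mul (F F' : PowerSeries (PowerSeries (PowerSeries ℝ))) (j a b : ℕ) :
    coeff b (coeff a (coeff j (F * F'))) = ∑ p ∈ antidiagonal j, ∑ q ∈ antidiagonal a,
      ∑ s ∈ antidiagonal b, coeff s.1 (coeff q.1 (coeff p.1 F)) *
        coeff s.2 (coeff q.2 (coeff p.2 F')) := by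
  rw [PowerSeries.coeff_mul, map_sum, map_sum]
  apply Finset.sum_congr rfl
  intro p _
  rw [PowerSeries.coeff_mul, map_sum]
  apply Finset.sum_congr rfl
  intro q _
  rw [PowerSeries.coeff_mul]

omit [Fintype ι] in
lemma GS_nonneg (ε : ι → ℕ) (S : Finset ι) :
    ∀ j a b, 0 ≤ coeff b (coeff a (coeff j (GS ε S))) := by
  unfold GS
  induction S using Finset.induction_on with
  | empty =>
    intro j a b
    rw [Finset.prod_empty, PowerSeries.coeff_one]
    split_ifs
    · rw [PowerSeries.coeff_one]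
      split_ifs
      · rw [PowerSeries.coeff_one]; split_ifs <;> norm_num
      · simp
    · simp
  | insert i S hi ih =>
    intro j a b
    rw [Finset.prod_insert hi, coeff3_mul]
    apply Finset.sum_nonneg
    intro p _
    apply Finset.sum_nonneg
    intro q _
    apply Finset.sum_nonneg
    intro s _
    rw [Gs_coeff]
    exact mul_nonneg (gam_nonneg _ _ _ _) (ih _ _ _)

lemma Af_eq (j : ℕ) : Af j = 1 / (((j : ℝ) + 1) * (j.factorial : ℝ)) := by
  unfold Af
  rw [Nat.factorial_succ]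
  push_cast
  rfl

lemma gam00 (e j : ℕ) : gam e j 0 0 = coeff j (Qs e) := by
  unfold gam
  rw [Qs_coeff, add_zero, add_zero, Nat.choose_self, Nat.stirlingSecond_self, Af_eq,
    Nat.descFactorial_eq_factorial_mul_choose]
  push_cast
  have h2 : (j.factorial : ℝ) ≠ 0 := by positivity
  have h3 : ((j : ℝ) + 1) ≠ 0 := by positivity
  field_simp

lemma gam01 (e j : ℕ) : coeff j (Qs e) / 2 ≤ gam e j 0 1 := by
  rw [← gam00]
  unfold gam
  rw [add_zero, add_zero, Nat.choose_self, Nat.stirlingSecond_self, Af_succ,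
    show j + 1 = j.succ from rfl, Nat.choose_succ_self_right]
  push_cast
  have h1 := Af_pos j
  have h3 : (0 : ℝ) < (j : ℝ) + 2 := by positivity
  have h4 : (0 : ℝ) ≤ (e.descFactorial j : ℝ) := by positivity
  rw [mul_div_assoc', div_le_div_iff₀ (by norm_num) h3]
  have h5 : 0 ≤ (e.descFactorial j : ℝ) * Af j := by positivity
  have h6 : (0 : ℝ) ≤ j := by positivity
  nlinarith [mul_nonneg h6 h5]

lemma stir2 (j : ℕ) : ((Nat.stirlingSecond (j + 1) j : ℕ) : ℝ) = (j : ℝ) * ((j : ℝ) + 1) / 2 := by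
  rw [Nat.stirlingSecond_succ_self_left, Nat.cast_choose_two]
  push_cast
  ring

lemma gam10 (e j : ℕ) : (j : ℝ) / 3 * coeff j (Qs e) ≤ gam e j 1 0 := by
  rw [← gam00]
  unfold gam
  rw [add_zero, add_zero, add_zero, Nat.choose_self, Nat.choose_self, Nat.stirlingSecond_self,
    Af_succ, stir2]
  push_cast
  have h1 := Af_pos j
  have h3 : (0 : ℝ) < (j : ℝ) + 2 := by positivity
  have h5 : 0 ≤ (e.descFactorial j : ℝ) * Af j := by positivity
  rw [mul_div_assoc', le_div_iff₀ h3]
  rcases Nat.eq_zero_or_pos j with h | h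
  · subst h
    simp
  · have h6 : (1 : ℝ) ≤ j := by exact_mod_cast h
    have h7 : 0 ≤ (j : ℝ) * ((j : ℝ) - 1) * ((e.descFactorial j : ℝ) * Af j) :=
      mul_nonneg (mul_nonneg (by linarith) (by linarith)) h5
    nlinarith

lemma gam11 (e j : ℕ) : (j : ℝ) / 4 * coeff j (Qs e) ≤ gam e j 1 1 := by
  rw [← gam00]
  unfold gam
  rw [add_zero, add_zero, Nat.choose_self, Nat.stirlingSecond_self, Af_succ (j + 1), Af_succ j,
    stir2, Nat.choose_succ_self_right]
  push_cast
  have h1 := Af_pos j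
  have h2 : (0 : ℝ) < (j : ℝ) + 2 := by positivity
  have h3 : (0 : ℝ) < (j : ℝ) + 3 := by positivity
  have h5 : 0 ≤ (e.descFactorial j : ℝ) * Af j := by positivity
  have e1 : ((j : ℝ) + 1 + 1) * ((j : ℝ) * ((j : ℝ) + 1) / 2) * (e.descFactorial j : ℝ) *
      (Af j / ((j : ℝ) + 2) / ((j : ℝ) + 1 + 2))
      = ((j : ℝ) * ((j : ℝ) + 1) / 2) * ((e.descFactorial j : ℝ) * Af j) / ((j : ℝ) + 3) := by
    field_simp
    ring
  rw [e1, le_div_iff₀ h3]
  rcases Nat.eq_zero_or_pos j with h | h
  · subst h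
    simp
  · have h6 : (1 : ℝ) ≤ j := by exact_mod_cast h
    have h7 : 0 ≤ (j : ℝ) * ((j : ℝ) - 1) * ((e.descFactorial j : ℝ) * Af j) :=
      mul_nonneg (mul_nonneg (by linarith) (by linarith)) h5
    nlinarith

/-- coefficient of the product over `S` -/
noncomputable def qS (ε : ι → ℕ) (S : Finset ι) (j : ℕ) : ℝ := coeff j (∏ i ∈ S, Qs (ε i))

omit [Fintype ι] in
lemma qS_insert (ε : ι → ℕ) (S : Finset ι) (i : ι) (hi : i ∉ S) (j : ℕ) :
    qS ε (insert i S) j = ∑ p ∈ antidiagonal j, coeff p.1 (Qs (ε i)) * qS ε S p.2 := by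
  unfold qS
  rw [Finset.prod_insert hi, PowerSeries.coeff_mul]

omit [Fintype ι] in
lemma qS_nonneg (ε : ι → ℕ) (S : Finset ι) (j : ℕ) : 0 ≤ qS ε S j := by
  unfold qS
  rw [PowerSeries.coeff_prod]
  exact Finset.sum_nonneg fun l _ ↦ Finset.prod_nonneg fun i _ ↦ Qs_nonneg _ _

omit [Fintype ι] in
lemma GS_insert (ε : ι → ℕ) (S : Finset ι) (i : ι) (hi : i ∉ S) (j a b : ℕ) :
    coeff b (coeff a (coeff j (GS ε (insert i S)))) =
      ∑ p ∈ antidiagonal j, ∑ q ∈ antidiagonal a, ∑ s ∈ antidiagonal b,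
        gam (ε i) p.1 q.1 s.1 * coeff s.2 (coeff q.2 (coeff p.2 (GS ε S))) := by
  unfold GS
  rw [Finset.prod_insert hi, coeff3_mul]
  simp only [Gs_coeff]

omit [Fintype ι] in
lemma low (ε : ι → ℕ) (S : Finset ι) : ∀ j,
    coeff 0 (coeff 0 (coeff j (GS ε S))) = qS ε S j ∧
    (j : ℝ) / 3 * qS ε S j ≤ coeff 0 (coeff 1 (coeff j (GS ε S))) ∧
    (S.card : ℝ) / 2 * qS ε S j ≤ coeff 1 (coeff 0 (coeff j (GS ε S))) ∧
    (j : ℝ) * (2 * (S.card : ℝ) + 1) / 12 * qS ε S j ≤
      coeff 1 (coeff 1 (coeff j (GS ε S))) := by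
  induction S using Finset.induction_on with
  | empty =>
    intro j
    unfold GS qS
    rw [Finset.prod_empty, Finset.prod_empty]
    rcases j with _ | j
    · simp [PowerSeries.coeff_one]
    · simp [PowerSeries.coeff_one]
  | insert i S hi ih =>
    intro j
    have a0 : antidiagonal 0 = {((0 : ℕ), (0 : ℕ))} := rfl
    have a1 : ∀ f : ℕ × ℕ → ℝ, ∑ x ∈ antidiagonal 1, f x = f (0, 1) + f (1, 0) := by
      intro f
      rw [show antidiagonal 1 = {((0 : ℕ), (1 : ℕ)), (1, 0)} from rfl]
      rw [Finset.sum_pair (by simp)]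
    refine ⟨?_, ?_, ?_, ?_⟩
    · rw [GS_insert ε S i hi, qS_insert ε S i hi]
      apply Finset.sum_congr rfl
      intro p _
      rw [a0, Finset.sum_singleton, Finset.sum_singleton, gam00, (ih p.2).1]
    · rw [GS_insert ε S i hi, qS_insert ε S i hi, Finset.mul_sum]
      apply Finset.sum_le_sum
      intro p hp
      have hj : (p.1 : ℝ) + p.2 = j := by exact_mod_cast HasAntidiagonal.mem_antidiagonal.mp hp
      rw [a1, a0]
      simp only [Finset.sum_singleton]
      rw [gam00, (ih p.2).1]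
      have h1 := mul_le_mul_of_nonneg_left (ih p.2).2.1 (Qs_nonneg (ε i) p.1)
      have h2 := mul_le_mul_of_nonneg_right (gam10 (ε i) p.1) (qS_nonneg ε S p.2)
      rw [← hj]
      linarith
    · rw [GS_insert ε S i hi, qS_insert ε S i hi, Finset.mul_sum, Finset.card_insert_of_notMem hi]
      apply Finset.sum_le_sum
      intro p hp
      rw [a0]
      simp only [Finset.sum_singleton]
      rw [a1, gam00, (ih p.2).1]
      have h1 := mul_le_mul_of_nonneg_left (ih p.2).2.2.1 (Qs_nonneg (ε i) p.1)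
      have h2 := mul_le_mul_of_nonneg_right (gam01 (ε i) p.1) (qS_nonneg ε S p.2)
      push_cast
      linarith
    · rw [GS_insert ε S i hi, qS_insert ε S i hi, Finset.mul_sum, Finset.card_insert_of_notMem hi]
      apply Finset.sum_le_sum
      intro p hp
      have hj : (p.1 : ℝ) + p.2 = j := by exact_mod_cast HasAntidiagonal.mem_antidiagonal.mp hp
      rw [a1, a1, a1, gam00, (ih p.2).1]
      have h1 := mul_le_mul_of_nonneg_left (ih p.2).2.2.2 (Qs_nonneg (ε i) p.1)
      have h2 := mul_le_mul_of_nonneg_right (gam11 (ε i) p.1) (qS_nonneg ε S p.2)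
      have h3 : (p.1 : ℝ) / 3 * coeff p.1 (Qs (ε i)) * ((S.card : ℝ) / 2 * qS ε S p.2) ≤
          gam (ε i) p.1 1 0 * coeff 1 (coeff 0 (coeff p.2 (GS ε S))) :=
        mul_le_mul (gam10 (ε i) p.1) (ih p.2).2.2.1
          (mul_nonneg (by positivity) (qS_nonneg ε S p.2)) (gam_nonneg _ _ _ _)
      have h4 : coeff p.1 (Qs (ε i)) / 2 * ((p.2 : ℝ) / 3 * qS ε S p.2) ≤
          gam (ε i) p.1 0 1 * coeff 0 (coeff 1 (coeff p.2 (GS ε S))) :=
        mul_le_mul (gam01 (ε i) p.1) (ih p.2).2.1
          (mul_nonneg (by positivity) (qS_nonneg ε S p.2)) (gam_nonneg _ _ _ _)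
      rw [← hj]
      push_cast
      linarith

end Pool.Agent.Helper87.KM
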